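import Pool.Agent.Helper38.DN.S3W

/-!
# Project DN, step 3: the centralizer argument
-/

namespace Pool.Agent.Helper38.DN

open Pool.Agent.Helper20.DN Pool.Agent.Helper38.BN

variable {k : ℕ} {H : Type*} [Group H]

lemma parW_sq (w : W k) : parW k (w * w) = 1 := by
  rw [map_mul]; exact Int.units_mul_self _

/-- the property of an element `A` to normalize the image of `f`, with parities -/
def Nrm (f : W k →* H) (A : H) : Prop :=
  (∀ w, ∃ w', A * f w * A⁻¹ = f w' ∧ parW k w' = parW k w) ∧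
    (∀ w, ∃ w', A⁻¹ * f w * A = f w' ∧ parW k w' = parW k w)

lemma Nrm_self (f : W k →* H) (g : W k) : Nrm f (f g) := by
  refine ⟨fun w => ⟨g * w * g⁻¹, by simp, ?_⟩, fun w => ⟨g⁻¹ * w * g, by simp, ?_⟩⟩
  · rw [map_mul, map_mul, map_inv, mul_comm (parW k g), mul_inv_cancel_right]
  · rw [map_mul, map_mul, map_inv, mul_comm _ (parW k w), inv_mul_cancel_right]

lemma Nrm_inv {f : W k →* H} {A : H} (h : Nrm f A) : Nrm f A⁻¹ := by
  refine ⟨fun w => ?_, fun w => ?_⟩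
  · rw [inv_inv]; exact h.2 w
  · rw [inv_inv]; exact h.1 w

lemma Nrm_mul {f : W k →* H} {A B : H} (hA : Nrm f A) (hB : Nrm f B) : Nrm f (A * B) := by
  refine ⟨fun w => ?_, fun w => ?_⟩
  · obtain ⟨w1, h1, p1⟩ := hB.1 w
    obtain ⟨w2, h2, p2⟩ := hA.1 w1
    refine ⟨w2, ?_, p2.trans p1⟩
    rw [← h2, ← h1]; group
  · obtain ⟨w1, h1, p1⟩ := hA.2 w
    obtain ⟨w2, h2, p2⟩ := hB.2 w1
    refine ⟨w2, ?_, p2.trans p1⟩
    rw [← h2, ← h1]; group

lemma Nrm_one (f : W k →* H) : Nrm f 1 := ⟨fun w => ⟨w, by simp, rfl⟩, fun w => ⟨w, by simp, rfl⟩⟩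

/-- an element which normalizes `f(W)` and commutes with `f(U)` maps the generator of the
centralizer of `U` to itself or to the inverse -/
lemma cyc_step {f : W k →* H} (hf : Function.Injective f) {A : H} (hA : Nrm f A) {U c : W k}
    (hc1 : c ≠ 1) (hcp : parW k c = 1) (hcU : c * U = U * c)
    (hcc : ∀ h, parW k h = 1 → h * U = U * h → h ∈ Subgroup.zpowers c)
    (hAU : A * f U = f U * A) : ∃ s : ℤ, (s = 1 ∨ s = -1) ∧ A * f c * A⁻¹ = f (c ^ s) := by
  have key : ∀ B : H, Nrm f B → B * f U = f U * B → ∃ s : ℤ, B * f c * B⁻¹ = f (c ^ s) := by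
    intro B hB hBU
    obtain ⟨c', h1, h2⟩ := hB.1 c
    have h3 : c' * U = U * c' := by
      apply hf
      rw [map_mul, map_mul, ← h1]
      have e1 : B⁻¹ * f U = f U * B⁻¹ := by
        have : B⁻¹ * f U = B⁻¹ * (f U * B) * B⁻¹ := by group
        rw [this, ← hBU]; group
      have e2 : f c * f U = f U * f c := by rw [← map_mul, hcU, map_mul]
      calc B * f c * B⁻¹ * f U = B * f c * (B⁻¹ * f U) := by group
        _ = B * (f c * f U) * B⁻¹ := by rw [e1]; group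
        _ = (B * f U) * f c * B⁻¹ := by rw [e2]; group
        _ = f U * (B * f c * B⁻¹) := by rw [hBU]; group
    obtain ⟨s, hs⟩ := Subgroup.mem_zpowers_iff.1 (hcc c' (h2.trans hcp) h3)
    exact ⟨s, by rw [h1, hs]⟩
  obtain ⟨s, hs⟩ := key A hA hAU
  obtain ⟨t, ht⟩ := key A⁻¹ (Nrm_inv hA) (by
    have : A⁻¹ * f U = A⁻¹ * (f U * A) * A⁻¹ := by group
    rw [this, ← hAU]; group)
  refine ⟨s, ?_, hs⟩
  have h1 : c ^ (t * s - 1) = 1 := by
    apply hf
    have e1 : f c = A⁻¹ * (A * f c * A⁻¹) * A := by group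
    have e2 : A⁻¹ * (A * f c * A⁻¹) * A = f (c ^ (t * s)) := by
      rw [hs, map_zpow]
      have e3 : A⁻¹ * f c ^ s * A = (A⁻¹ * f c * (A⁻¹)⁻¹) ^ s := by
        rw [conj_zpow, inv_inv]
      rw [e3, ht, ← map_zpow, ← zpow_mul]
    rw [zpow_sub, zpow_one, map_mul, map_inv, map_one, ← e2, ← e1, mul_inv_cancel]
  have h2 : t * s - 1 = 0 := by
    by_contra h
    exact hc1 (even_pow hcp h h1)
  have h3 : t * s = 1 := by omega
  exact Int.isUnit_iff.1 (IsUnit.of_mul_eq_one t (by rw [mul_comm]; exact h3))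

/-- two elements which commute with `U ≠ 1`, `U` even, commute -/
lemma comm_of_comm {U g h : W k} (hU : U ≠ 1) (hUp : parW k U = 1) (hg : g * U = U * g)
    (hh : h * U = U * h) : g * h = h * g := by
  obtain ⟨c, hcp, hcU, hcc⟩ := cyc_cent hU hUp
  obtain ⟨n, hn⟩ := Subgroup.mem_zpowers_iff.1 (hcc U hUp rfl)
  have hc1 : c ≠ 1 := by
    rintro rfl
    exact hU (by rw [← hn, one_zpow])
  have hn0 : n ≠ 0 := by
    rintro rfl
    exact hU (by rw [← hn, zpow_zero])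
  have key : ∀ x : W k, x * U = U * x → x * c = c * x := by
    intro x hx
    obtain ⟨s, hs, h1⟩ := cyc_step (f := MonoidHom.id (W k)) Function.injective_id
      (Nrm_self _ x) hc1 hcp hcU hcc hx
    change x * c * x⁻¹ = c ^ s at h1
    have h2 : x * U * x⁻¹ = c ^ (s * n) := by
      rw [← hn, ← conj_zpow, h1, zpow_mul]
    rw [hx, mul_inv_cancel_right, ← hn] at h2
    have h3 : c ^ (s * n - n) = 1 := by rw [zpow_sub, ← h2, mul_inv_cancel]
    have h4 : s * n - n = 0 := by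
      by_contra h
      exact hc1 (even_pow hcp h h3)
    rcases hs with rfl | rfl
    · rw [zpow_one] at h1
      have e0 : x * c = x * c * x⁻¹ * x := by group
      rw [e0, h1]
    · exfalso; omega
  have kg := key g hg
  have kh := key h hh
  obtain ⟨j, hj⟩ := Subgroup.mem_zpowers_iff.1 (hcc (g * h * g⁻¹ * h⁻¹) (by
    rw [map_mul, map_mul, map_mul, map_inv, map_inv, mul_comm (parW k g), mul_inv_cancel_right,
      mul_inv_cancel]) (by
    have e1 : g⁻¹ * U = U * g⁻¹ := by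
      have : g⁻¹ * U = g⁻¹ * (U * g) * g⁻¹ := by group
      rw [this, ← hg]; group
    have e2 : h⁻¹ * U = U * h⁻¹ := by
      have : h⁻¹ * U = h⁻¹ * (U * h) * h⁻¹ := by group
      rw [this, ← hh]; group
    calc g * h * g⁻¹ * h⁻¹ * U = g * h * g⁻¹ * (h⁻¹ * U) := by group
      _ = g * h * (g⁻¹ * U) * h⁻¹ := by rw [e2]; group
      _ = g * (h * U) * g⁻¹ * h⁻¹ := by rw [e1]; group
      _ = (g * U) * h * g⁻¹ * h⁻¹ := by rw [hh]; group
      _ = U * (g * h * g⁻¹ * h⁻¹) := by rw [hg]; group))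
  obtain ⟨b, hb⟩ := Subgroup.mem_zpowers_iff.1 (hcc (h * h) (parW_sq h) (by
    rw [mul_assoc, hh, ← mul_assoc, hh, mul_assoc]))
  have e1 : g * h * g⁻¹ = c ^ j * h := by rw [hj]; group
  have e2 : g * (h * h) * g⁻¹ = c ^ j * h * (c ^ j * h) := by rw [← e1]; group
  have e3 : h * c ^ j = c ^ j * h := ((show Commute h c from kh).zpow_right j).eq
  have e4 : g * c ^ b = c ^ b * g := ((show Commute g c from kg).zpow_right b).eq
  have e5 : c ^ j * h * (c ^ j * h) = c ^ (2 * j) * (h * h) := by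
    have : c ^ j * h * (c ^ j * h) = c ^ j * (h * c ^ j) * h := by group
    rw [this, e3, two_mul, zpow_add]; group
  rw [e5, ← hb, e4, mul_inv_cancel_right] at e2
  have e6 : c ^ (2 * j) = 1 := by
    exact right_eq_mul.1 e2
  have e7 : j = 0 := by
    by_contra hh
    exact hc1 (even_pow hcp (by omega) e6)
  rw [e7, zpow_zero] at hj
  have : g * h = (g * h * g⁻¹ * h⁻¹) * (h * g) := by group
  rw [this, ← hj, one_mul]

/-- the centralizer argument -/
theorem core {f : W k →* H} (hf : Function.Injective f) {A1 A2 : H} (hA1 : Nrm f A1)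
    (hA2 : Nrm f A2) {u v0 v1 : W k} (hu1 : A1 * f u = f u * A1) (hu2 : A2 * f u = f u * A2)
    (h0 : v0 * u = u * v0) (h1 : v1 * u = u * v1) (e1 : A2 * f v0 * A2⁻¹ = f v1)
    (e2 : A1 * f v1 * A1⁻¹ = f (v0⁻¹ * v1)) : u = 1 ∨ v0 = 1 := by
  by_contra hcon
  rw [not_or] at hcon
  obtain ⟨hu, hv⟩ := hcon
  have hv1 : v1 ≠ 1 := by
    rintro rfl
    apply hv
    apply hf
    rw [map_one] at e1 ⊢
    have : f v0 = A2⁻¹ * (A2 * f v0 * A2⁻¹) * A2 := by group
    rw [this, e1]; group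
  have hv01 : v0⁻¹ * v1 ≠ 1 := by
    intro h
    apply hv1
    apply hf
    rw [h, map_one] at e2
    rw [map_one]
    have : f v1 = A1⁻¹ * (A1 * f v1 * A1⁻¹) * A1 := by group
    rw [this, e2]; group
  by_cases huu : u * u = 1
  · rcases cent_inv huu hu h0 with h2 | h2
    · exact hv h2
    rcases cent_inv huu hu h1 with h3 | h3
    · exact hv1 h3
    apply hv01
    rw [h2, h3, inv_mul_cancel]
  have comm2 : ∀ {x : W k}, x * u = u * x → x * (u * u) = (u * u) * x := by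
    intro x hx
    rw [← mul_assoc, hx, mul_assoc, hx, mul_assoc]
  obtain ⟨c, hcp, hcU, hcc⟩ := cyc_cent huu (parW_sq u)
  obtain ⟨n, hn⟩ := Subgroup.mem_zpowers_iff.1 (hcc (u * u) (parW_sq u) rfl)
  have hc1 : c ≠ 1 := by
    rintro rfl
    exact huu (by rw [← hn, one_zpow])
  have sq : ∀ {x : W k}, x * u = u * x → (x * x) * (u * u) = (u * u) * (x * x) := by
    intro x hx
    rw [mul_assoc, comm2 hx, ← mul_assoc, comm2 hx, mul_assoc]
  have h01 : (v0⁻¹ * v1) * u = u * (v0⁻¹ * v1) := by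
    have : v0⁻¹ * u = u * v0⁻¹ := by
      have : v0⁻¹ * u = v0⁻¹ * (u * v0) * v0⁻¹ := by group
      rw [this, ← h0]; group
    rw [mul_assoc, h1, ← mul_assoc, this, mul_assoc]
  obtain ⟨a, ha⟩ := Subgroup.mem_zpowers_iff.1 (hcc _ (parW_sq v0) (sq h0))
  obtain ⟨b, hb⟩ := Subgroup.mem_zpowers_iff.1 (hcc _ (parW_sq v1) (sq h1))
  obtain ⟨d, hd⟩ := Subgroup.mem_zpowers_iff.1 (hcc _ (parW_sq (v0⁻¹ * v1)) (sq h01))
  have ha0 : a ≠ 0 := by
    rintro rfl
    rw [zpow_zero] at ha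
    rcases cent_inv ha.symm hv h0.symm with h2 | h2
    · exact hu h2
    · exact huu (by rw [h2]; exact ha.symm)
  have hUf : ∀ {A : H}, A * f u = f u * A → A * f (u * u) = f (u * u) * A := by
    intro A hA
    rw [map_mul, ← mul_assoc, hA, mul_assoc, hA, mul_assoc]
  obtain ⟨s, hs, hs'⟩ := cyc_step hf hA2 hc1 hcp hcU hcc (hUf hu2)
  obtain ⟨t, ht, ht'⟩ := cyc_step hf hA1 hc1 hcp hcU hcc (hUf hu1)
  have inj : ∀ {x y : ℤ}, c ^ x = c ^ y → x = y := by
    intro x y hxy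
    have h3 : c ^ (x - y) = 1 := by rw [zpow_sub, hxy, mul_inv_cancel]
    by_contra h
    exact hc1 (even_pow hcp (by omega) h3)
  have q1 : b = s * a := by
    apply inj
    apply hf
    rw [hb, map_mul, ← e1]
    have : A2 * f v0 * A2⁻¹ * (A2 * f v0 * A2⁻¹) = A2 * f (v0 * v0) * A2⁻¹ := by
      rw [map_mul]; group
    rw [this, ← ha, map_zpow, ← conj_zpow, hs', ← map_zpow, ← zpow_mul]
  have q2 : d = t * b := by
    apply inj
    apply hf
    rw [hd, map_mul, ← e2]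
    have : A1 * f v1 * A1⁻¹ * (A1 * f v1 * A1⁻¹) = A1 * f (v1 * v1) * A1⁻¹ := by
      rw [map_mul]; group
    rw [this, ← hb, map_zpow, ← conj_zpow, ht', ← map_zpow, ← zpow_mul]
  have hcomm : v0 * v1 = v1 * v0 := comm_of_comm huu (parW_sq u) (comm2 h0) (comm2 h1)
  have q3 : d = b - a := by
    apply inj
    have e4 : v0⁻¹ * v1 = v1 * v0⁻¹ := by
      have : v0⁻¹ * v1 = v0⁻¹ * (v1 * v0) * v0⁻¹ := by group
      rw [this, ← hcomm]; group
    rw [hd, zpow_sub, ha, hb, mul_inv_rev]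
    calc v0⁻¹ * v1 * (v0⁻¹ * v1) = v1 * v0⁻¹ * (v1 * v0⁻¹) := by rw [e4]
      _ = v1 * (v0⁻¹ * v1) * v0⁻¹ := by group
      _ = v1 * (v1 * v0⁻¹) * v0⁻¹ := by rw [e4]
      _ = v1 * v1 * (v0⁻¹ * v0⁻¹) := by group
  rcases hs with rfl | rfl <;> rcases ht with rfl | rfl <;> omega

end Pool.Agent.Helper38.DN
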