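import Pool.Agent.Helper20.DN.Gam
import Pool.Agent.Helper20.DN.IntSup
import Pool.Agent.Helper38.DN.S3C

/-!
# Project DN, step 3: the automorphisms permute `LR` and `LL`
-/

namespace Pool.Agent.Helper38.DN

open Pool.Agent.Helper20.DN
open Pool.Agent.Helper38.BN hiding RW

variable {p : ℕ}

instance lamNormal (p : ℕ) : (lam p).range.Normal :=
  ⟨by rintro _ ⟨l, rfl⟩ g; exact ⟨ActD p g l, (lam_equiv g l).symm⟩⟩

/-- the group `Γ / λ(L)` -/
abbrev GR (p : ℕ) : Type := Dh p ⧸ (lam p).range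

/-- the projection `Γ → Γ / λ(L)` -/
noncomputable def qR (p : ℕ) : Dh p →* GR p := QuotientGroup.mk' _

lemma qR_eq_one {x : Dh p} : qR p x = 1 ↔ x ∈ (lam p).range := by
  rw [← MonoidHom.mem_ker, qR, QuotientGroup.ker_mk']

lemma qR_lam (l : L (p + 3)) : qR p (lam p l) = 1 := qR_eq_one.2 ⟨l, rfl⟩

/-- the homomorphism `W → Γ / λ(L)` -/
noncomputable def fR (p : ℕ) : W (p + 3) →* GR p := (qR p).comp ((lam' p).comp (sW (p + 3)))

lemma fR_apply (w : W (p + 3)) : fR p w = qR p (lam' p (sW (p + 3) w)) := rfl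

lemma OmD_eq : OmD p = lam' p (RL (p + 3)) * ze p := by
  rw [ze_eq, ← mul_assoc, mul_inv_cancel, one_mul]

lemma OmD_zpow (n : ℤ) : OmD p ^ n = lam' p (sW (p + 3) (RW (p + 3) ^ n)) * lam p (rL (p + 3) ^ n) := by
  have h : Commute (lam' p (RL (p + 3))) (ze p) := ze_comm (lam'_sW_mem _)
  rw [OmD_eq, h.mul_zpow, map_zpow, map_zpow, map_zpow, lam_r]
  rfl

lemma OmD_zpow_one {n : ℤ} (h : OmD p ^ n = 1) : n = 0 := by
  have h1 := congrArg (lenH p) h
  rw [map_zpow, len_OmD, map_one, ← ofAdd_zsmul, ← ofAdd_zero] at h1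
  have h2 := Multiplicative.ofAdd.injective h1
  rw [smul_eq_mul] at h2
  rcases mul_eq_zero.1 h2 with h3 | h3
  · exact h3
  · exfalso
    have : ((p + 3) * (p + 4) : ℕ) ≠ 0 := by positivity
    exact this (by exact_mod_cast h3)

/-- `λ(L) ∩ λ'(W) = 1` -/
lemma lam_sW' {w : W (p + 3)} {l : L (p + 3)} (h : lam p l = lam' p (sW (p + 3) w)) : w = 1 := by
  have h1 : lam p l ∈ HD p := by rw [h]; exact lam'_sW_mem w
  obtain ⟨n, hn⟩ := Subgroup.mem_zpowers_iff.1 (lam_HD h1)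
  have h2 : OmD p ^ n = lam' p (sW (p + 3) (RW (p + 3) ^ n * w)) := by
    rw [OmD_zpow, hn, h, ← map_mul, ← map_mul]
  have h3 : lam' p (sW (p + 3) (RW (p + 3) ^ n * w)) ∈ BrD p := by
    rw [← h2]; exact Subgroup.zpow_mem _ OmD_mem n
  have h4 := lam'_Br h3
  have h5 : OmD p ^ n = 1 := by rw [h2, h4, map_one]
  have h6 := OmD_zpow_one h5
  rw [h6, zpow_zero, one_mul] at h4
  exact sW_inj (h4.trans (map_one _).symm)

lemma fR_inj : Function.Injective (fR p) := by
  rw [injective_iff_map_eq_one]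
  intro w hw
  obtain ⟨l, hl⟩ := qR_eq_one.1 hw
  exact lam_sW' hl

/-- the fold of `λ'(W)` -/
lemma fold_sW' (w : W (p + 3)) : foldG p (lam' p (sW (p + 3) w)) = 1 := by
  have h : (foldG p).comp ((lam' p).comp (sW (p + 3))) = 1 := by
    apply homW_ext
    intro i hi
    rw [MonoidHom.comp_apply, MonoidHom.comp_apply, sW_x hi, MonoidHom.one_apply]
    have key : ∀ d i, i + d = p + 3 → foldG p (lam' p (xL i)) = 1 := by
      intro d
      induction d with
      | zero =>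
        intro i hi
        rw [show i = p + 3 by omega, lam'_x, foldG_tL]
      | succ d ih =>
        intro i hi
        have h1 := ih (i + 1) (by omega)
        rw [lam'_apply] at h1 ⊢
        rw [lam_x_step (by omega), map_mul, map_mul, map_inv, map_mul, map_mul, map_inv, h1, mul_one,
          mul_inv_cancel]
    exact key (p + 3 - i) i (by omega)
  exact DFunLike.congr_fun h w

lemma fold_OmD : foldG p (OmD p) = Om (p + 3) aH := by
  rw [OmD_eq, map_mul, show lam' p (RL (p + 3)) = lam' p (sW (p + 3) (RW (p + 3))) from rfl, fold_sW',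
    one_mul, fold_ze]

/-- the elements whose fold is a power of `Ω` -/
lemma decompN {x : Dh p} (hx : foldG p x ∈ Subgroup.zpowers (Om (p + 3) aH : HB (p + 3))) :
    ∃ l w, x = lam p l * lam' p (sW (p + 3) w) := by
  obtain ⟨l, h, hh, rfl⟩ := Dh_decomp x
  obtain ⟨w, b, hb, rfl⟩ := HD_decomp hh
  have h1 : foldG p b ∈ Subgroup.zpowers (Om (p + 3) aH : HB (p + 3)) := by
    rw [map_mul, map_mul, fold_sW', one_mul] at hx
    have := Subgroup.mul_mem _ (Subgroup.inv_mem _ (fold_lam l)) hx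
    rwa [inv_mul_cancel_left] at this
  obtain ⟨n, hn⟩ := Subgroup.mem_zpowers_iff.1 h1
  have h2 : b = OmD p ^ n := by
    rw [← jH_fold hb, ← hn, map_zpow, ← fold_OmD, jH_fold OmD_mem]
  have h3 : OmD p ^ n = lam p (rL (p + 3) ^ n) * lam' p (sW (p + 3) (RW (p + 3) ^ n)) := by
    rw [OmD_zpow]
    have h : Commute (lam' p (sW (p + 3) (RW (p + 3) ^ n))) (ze p) := ze_comm (lam'_sW_mem _)
    rw [map_zpow (lam p), lam_r]
    exact (h.zpow_right n).eq
  refine ⟨l * ActD p (lam' p (sW (p + 3) w)) (rL (p + 3) ^ n), w * RW (p + 3) ^ n, ?_⟩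
  rw [h2, h3, map_mul, ← lam_equiv, map_mul, map_mul]
  group

/-- elements of `NN` -/
lemma memN {x : D p} (hx : x ∈ Pool.Agent.Helper20.DN.NN p) : ∃ w, qR p (iD x) = fR p w := by
  obtain ⟨l, w, h⟩ := decompN (x := iD x) hx
  exact ⟨w, by rw [h, map_mul, qR_lam, one_mul]; rfl⟩

lemma LR_N {x : D p} (hx : x ∈ LR p) : x ∈ Pool.Agent.Helper20.DN.NN p := by
  obtain ⟨l, hl⟩ := hx
  change foldG p (iD x) ∈ Subgroup.zpowers (Om (p + 3) aH : HB (p + 3))
  rw [← hl]
  exact fold_lam l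

lemma LL_N {x : D p} (hx : x ∈ LL p) : x ∈ Pool.Agent.Helper20.DN.NN p := by
  obtain ⟨l, hl⟩ := hx
  change foldG p (iD x) ∈ Subgroup.zpowers (Om (p + 3) aH : HB (p + 3))
  rw [← hl]
  obtain ⟨κ, hκ, h⟩ := L_decomp l
  obtain ⟨κ', _, h'⟩ := lam'_K hκ
  rw [h, map_mul, h', map_mul, fold_sW', mul_one]
  exact fold_lam κ'

instance NNnormal : (Pool.Agent.Helper20.DN.NN p).Normal := by
  constructor
  intro x hx g
  change foldG p (iD (g * x * g⁻¹)) ∈ Subgroup.zpowers (Om (p + 3) aH : HB (p + 3))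
  obtain ⟨n, hn⟩ := Subgroup.mem_zpowers_iff.1 hx
  rw [map_mul, map_mul, map_mul, map_mul, map_inv, map_inv]
  change foldG p (iD g) * ((foldG p).comp iD) x * _ ∈ Subgroup.zpowers (Om (p + 3) aH : HB (p + 3))
  rw [← hn, ← fold_OmD, ← map_zpow, ← map_mul, ← map_inv, ← map_mul]
  have h1 : foldG p (iD g * OmD p ^ n * (iD g)⁻¹) = foldG p (OmD p ^ n) := by
    have h2 : foldG p (iD g) * foldG p (OmD p) = foldG p (OmD p) * foldG p (iD g) := by
      obtain ⟨l, h, hh, e1⟩ := Dh_decomp (iD g)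
      obtain ⟨w, b, hb, e2⟩ := HD_decomp hh
      obtain ⟨n, hn⟩ := Subgroup.mem_zpowers_iff.1 (fold_lam l)
      rw [e1, e2, map_mul, map_mul, fold_sW', one_mul, ← hn, ← fold_OmD, mul_assoc, ← map_mul,
        OmD_comm hb, map_mul, ← mul_assoc, ← mul_assoc, ← zpow_add_one, ← zpow_one_add, add_comm n 1]
    rw [map_mul, map_mul, map_inv, map_zpow, ((show Commute _ _ from h2).zpow_right n).eq,
      mul_inv_cancel_right]
  rw [h1, map_zpow]
  exact Subgroup.zpow_mem _ (by rw [fold_OmD]; exact Subgroup.mem_zpowers _) n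

/-! ### normalizing elements -/

lemma Nrm_a {j : ℕ} (hj : j < p + 3) : Nrm (fR p) (qR p (iD (aD j))) := by
  have h1 : ∀ w, qR p (iD (aD j)) * fR p w * (qR p (iD (aD j)))⁻¹ = fR p (wA (p + 2 - j) w) := by
    intro w
    rw [fR_apply, fR_apply, ← aL_sW (by omega), ← lam'_a hj, map_mul, map_mul, map_inv]
  refine ⟨fun w => ⟨_, h1 w, parW_wA w⟩, fun w => ⟨(wA (p + 2 - j))⁻¹ w, ?_, ?_⟩⟩
  · have h2 := h1 ((wA (p + 2 - j))⁻¹ w)
    rw [MulAut.apply_inv_self] at h2
    rw [← h2]; group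
  · have h2 := parW_wA (j := p + 2 - j) ((wA (p + 2 - j))⁻¹ w)
    rw [MulAut.apply_inv_self] at h2
    exact h2.symm

lemma Nrm_qR (g : Dh p) : Nrm (fR p) (qR p g) := by
  have h : g ∈ Subgroup.closure
      ({tL, tR} ∪ (fun j => iD (aD j)) '' {j | j < p + 3} : Set (Dh p)) := by
    rw [closure_Dh]; trivial
  induction h using Subgroup.closure_induction with
  | mem x hx =>
    rcases hx with hx | ⟨j, hj, rfl⟩
    · rcases hx with rfl | hx
      · rw [← lam'_x, ← sW_x le_rfl, ← fR_apply]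
        exact Nrm_self _ _
      · rw [Set.mem_singleton_iff] at hx
        rw [hx, ← lam_x, qR_lam]
        exact Nrm_one _
    · exact Nrm_a hj
  | one => rw [map_one]; exact Nrm_one _
  | mul x y _ _ hx hy => rw [map_mul]; exact Nrm_mul hx hy
  | inv x _ hx => rw [map_inv]; exact Nrm_inv hx

/-- in the braid group of three generators -/
lemma v01_eq {H : Type*} [Group H] {a b c : H} (h1 : a * c * a = c * a * c)
    (h2 : b * c * b = c * b * c) :
    a * (c * (b * a⁻¹) * c⁻¹) * a⁻¹ = (b * a⁻¹)⁻¹ * (c * (b * a⁻¹) * c⁻¹) := by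
  have e1 : b⁻¹ * c * b = c * b * c⁻¹ := by
    have : b⁻¹ * c * b = b⁻¹ * (c * b * c) * c⁻¹ := by group
    rw [this, ← h2]; group
  have e2 : a⁻¹ * c⁻¹ * a⁻¹ = c⁻¹ * a⁻¹ * c⁻¹ := by
    have : a⁻¹ * c⁻¹ * a⁻¹ = (a * c * a)⁻¹ := by group
    rw [this, h1]; group
  have e3 : (b * a⁻¹)⁻¹ * (c * (b * a⁻¹) * c⁻¹) = a * (b⁻¹ * c * b) * a⁻¹ * c⁻¹ := by group
  rw [e3, e1]
  have e4 : a * (c * (b * a⁻¹) * c⁻¹) * a⁻¹ = a * c * b * (a⁻¹ * c⁻¹ * a⁻¹) := by group
  rw [e4, e2]; group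

/-- the subgroup of the elements of `D p` that go to `LR` under `ψ` is normal, and so on: the homomorphism
`D p → Γ / λ(L)` -/
noncomputable def QQ (ψ : MulAut (D p)) : D p →* GR p := (qR p).comp (iD.comp ψ.toMonoidHom)

lemma QQ_apply (ψ : MulAut (D p)) (x : D p) : QQ ψ x = qR p (iD (ψ x)) := rfl

lemma QQ_one {ψ : MulAut (D p)} {x : D p} : QQ ψ x = 1 ↔ ψ x ∈ LR p := by
  rw [QQ_apply, qR_eq_one]; rfl

/-- `ψ` maps `u_0` or `v_0` to `LR` -/
theorem kill_uv (hp : 1 ≤ p) (ψ : MulAut (D p))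
    (hN : ∀ x ∈ Pool.Agent.Helper20.DN.NN p, ψ x ∈ Pool.Agent.Helper20.DN.NN p) :
    QQ ψ (eD * (aD 0)⁻¹) = 1 ∨ QQ ψ (bD * (aD (p + 2))⁻¹) = 1 := by
  have rel := relD p
  have hu : eD * (aD 0)⁻¹ ∈ Pool.Agent.Helper20.DN.NN p := LL_N u0_LL
  have hv : bD * (aD (p + 2))⁻¹ ∈ Pool.Agent.Helper20.DN.NN p := LR_N v0_LR
  have hv1 : aD (p + 1) * (bD * (aD (p + 2))⁻¹) * (aD (p + 1))⁻¹ ∈ Pool.Agent.Helper20.DN.NN p :=
    NNnormal.conj_mem _ hv _
  obtain ⟨u, hu'⟩ := memN (hN _ hu)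
  obtain ⟨v0, hv0'⟩ := memN (hN _ hv)
  obtain ⟨v1, hv1'⟩ := memN (hN _ hv1)
  rw [← QQ_apply] at hu' hv0' hv1'
  -- commutation relations
  have c0 : ∀ {j}, 1 < j → j < p + 3 →
      (aD j * (eD * (aD 0)⁻¹) : D p) = (eD * (aD 0)⁻¹) * aD j := by
    intro j h1 h2
    have e1 : Commute (aD j) (eD : D p) := (rel.ec j h1 h2).symm
    have e2 : Commute (aD j) (aD 0 : D p) := (rel.comm 0 j (by omega) h2).symm
    exact (e1.mul_right e2.inv_right).eq
  have c1 : (bD * (aD (p + 2))⁻¹ : D p) * (eD * (aD 0)⁻¹) = (eD * (aD 0)⁻¹) * (bD * (aD (p + 2))⁻¹) := by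
    have e1 : Commute (bD : D p) (eD * (aD 0)⁻¹) := by
      have e2 : Commute (bD : D p) eD := rel.be
      have e3 : Commute (bD : D p) (aD 0) := rel.bc 0 (by omega)
      exact e2.mul_right e3.inv_right
    have e2 : Commute (aD (p + 2) : D p) (eD * (aD 0)⁻¹) := c0 (by omega) (by omega)
    exact (e1.mul_left e2.inv_left).eq
  have c2 : (aD (p + 1) * (bD * (aD (p + 2))⁻¹) * (aD (p + 1))⁻¹ : D p) * (eD * (aD 0)⁻¹) =
      (eD * (aD 0)⁻¹) * (aD (p + 1) * (bD * (aD (p + 2))⁻¹) * (aD (p + 1))⁻¹) := by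
    have e1 : Commute (aD (p + 1) : D p) (eD * (aD 0)⁻¹) := c0 (by omega) (by omega)
    exact ((e1.mul_left c1).mul_left e1.inv_left).eq
  have key := core (f := fR p) fR_inj (A1 := QQ ψ (aD (p + 2))) (A2 := QQ ψ (aD (p + 1)))
    (u := u) (v0 := v0) (v1 := v1) (Nrm_qR _) (Nrm_qR _)
    (by rw [← hu', ← map_mul, ← map_mul, c0 (by omega) (by omega)])
    (by rw [← hu', ← map_mul, ← map_mul, c0 (by omega) (by omega)])
    (by
      apply fR_inj
      rw [map_mul, map_mul, ← hu', ← hv0', ← map_mul, ← map_mul, c1])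
    (by
      apply fR_inj
      rw [map_mul, map_mul, ← hu', ← hv1', ← map_mul, ← map_mul, c2])
    (by rw [← hv0', ← hv1', ← map_inv, ← map_mul, ← map_mul])
    (by
      rw [map_mul, map_inv, ← hv0', ← hv1', ← map_inv, ← map_mul, ← map_mul, ← map_inv, ← map_mul]
      congr 1
      apply v01_eq
      · exact (rel.braid (p + 1) (by omega)).symm
      · exact rel.bb)
  rcases key with h | h
  · left; rw [hu', h, map_one]
  · right; rw [hv0', h, map_one]

/-! ### the kernel contains `LR` or `LL` -/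

/-- an element of `W` which commutes with all even elements is trivial -/
lemma cent_even {k : ℕ} (hk : 3 ≤ k) {w : W k} (h : ∀ w', parW k w' = 1 → w * w' = w' * w) :
    w = 1 := by
  have h1 : w ∈ Subgroup.zpowers (RW k) := by
    apply centW (by omega) (n := 2) (by omega)
    apply h
    rw [zpow_two]
    exact parW_sq _
  obtain ⟨j, rfl⟩ := Subgroup.mem_zpowers_iff.1 h1
  have hpar : ∀ i, i ≤ k → parW k (xW i) = -1 := fun i hi => liftW_x _ _ hi
  have h2 := h (xW 1 * xW 0) (by rw [map_mul, hpar _ (by omega), hpar _ (by omega)]; simp)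
  by_cases hj : j = 0
  · rw [hj, zpow_zero]
  · exfalso
    obtain ⟨i, hi⟩ := Subgroup.mem_zpowers_iff.1 (centW (by omega) hj h2.symm)
    have h3 := not_conjW hk (g := 1) (i := 1) (j := i) (by rw [zpow_one, hi]; group)
    exact absurd h3 one_ne_zero

lemma mem_DW (w : W (p + 3)) (hw : parW (p + 3) w = 1) :
    ∃ d : D p, lam' p (sW (p + 3) w) = iD d :=
  mem_D (by rw [sgn_sW', hw]; rfl)

/-- central elements of the image which come from `NN` are trivial -/
lemma central_one (ψ : MulAut (D p)) {x : D p} (hx : ψ x ∈ Pool.Agent.Helper20.DN.NN p)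
    (h : ∀ y, QQ ψ x * QQ ψ y = QQ ψ y * QQ ψ x) : QQ ψ x = 1 := by
  obtain ⟨w, hw⟩ := memN hx
  rw [← QQ_apply] at hw
  rw [hw]
  have : w = 1 := by
    apply cent_even (by omega)
    intro w' hw'
    obtain ⟨d, hd⟩ := mem_DW w' hw'
    have h1 := h (ψ⁻¹ d)
    rw [QQ_apply ψ (ψ⁻¹ d), MulAut.apply_inv_self, ← hd, hw, ← fR_apply, ← map_mul, ← map_mul] at h1
    exact fR_inj h1
  rw [this, map_one]

/-- the normal closure of `v_0` in `D p` -/
def Vd (p : ℕ) : Subgroup (D p) := Subgroup.normalClosure {bD * (aD (p + 2))⁻¹}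

instance : (Vd p).Normal := Subgroup.normalClosure_normal

lemma v0_Vd : (bD * (aD (p + 2))⁻¹ : D p) ∈ Vd p :=
  Subgroup.subset_normalClosure (Set.mem_singleton _)

lemma map_Vd {f : MulAut (D p)} (h : f (bD * (aD (p + 2))⁻¹) ∈ Vd p) {x : D p} (hx : x ∈ Vd p) :
    f x ∈ Vd p := by
  have : Vd p ≤ (Vd p).comap f.toMonoidHom := by
    apply Subgroup.normalClosure_le_normal
    intro y hy
    rw [Set.mem_singleton_iff] at hy
    rw [hy]
    exact h
  exact this hx

lemma cj_tL : cj p tL = tLa p := by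
  unfold cj tL
  rw [SemidirectProduct.lift_inr, kAct_L]

lemma cj_tR : cj p tR = tRa p := by
  unfold cj tR
  rw [SemidirectProduct.lift_inr, kAct_R]

lemma cj_iD (d : D p) : cj p (iD d) = MulAut.conj d := by
  unfold cj
  rw [SemidirectProduct.lift_inl]

lemma cj_Vd (g : Dh p) : (∀ x ∈ Vd p, cj p g x ∈ Vd p) ∧ (∀ x ∈ Vd p, (cj p g)⁻¹ x ∈ Vd p) := by
  have h : g ∈ Subgroup.closure
      ({tL, tR} ∪ (fun j => iD (aD j)) '' {j | j < p + 3} : Set (Dh p)) := by
    rw [closure_Dh]; trivial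
  induction h using Subgroup.closure_induction with
  | mem x hx =>
    rcases hx with hx | ⟨j, hj, rfl⟩
    · rcases hx with rfl | hx
      · have h1 : ∀ x ∈ Vd p, cj p tL x ∈ Vd p := by
          intro x hx
          refine map_Vd ?_ hx
          rw [cj_tL, map_mul, map_inv, tLa_b, tLa_a (by omega) (by omega)]
          exact v0_Vd
        refine ⟨h1, ?_⟩
        rw [cj_tL] at h1 ⊢
        rwa [inv_eq_of_mul_eq_one_left tLa_tLa]
      · rw [Set.mem_singleton_iff] at hx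
        subst hx
        have h1 : ∀ x ∈ Vd p, cj p tR x ∈ Vd p := by
          intro x hx
          refine map_Vd ?_ hx
          rw [cj_tR, map_mul, map_inv, tRa_b, tRa_a']
          have := Subgroup.inv_mem _ (v0_Vd (p := p))
          rwa [mul_inv_rev, inv_inv] at this
        refine ⟨h1, ?_⟩
        rw [cj_tR] at h1 ⊢
        rwa [inv_eq_of_mul_eq_one_left tRa_tRa]
    · change (∀ x ∈ Vd p, cj p (iD (aD j)) x ∈ Vd p) ∧ (∀ x ∈ Vd p, (cj p (iD (aD j)))⁻¹ x ∈ Vd p)
      rw [cj_iD]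
      refine ⟨fun x hx => Subgroup.Normal.conj_mem inferInstance x hx _, fun x hx => ?_⟩
      rw [← map_inv]
      exact Subgroup.Normal.conj_mem inferInstance x hx _
  | one => rw [map_one]; exact ⟨fun x hx => hx, fun x hx => by rw [inv_one]; exact hx⟩
  | mul x y _ _ hx hy =>
    rw [map_mul]
    refine ⟨fun z hz => hx.1 _ (hy.1 _ hz), fun z hz => ?_⟩
    rw [mul_inv_rev]
    exact hy.2 _ (hx.2 _ hz)
  | inv x _ hx =>
    rw [map_inv]
    refine ⟨hx.2, ?_⟩
    rw [inv_inv]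
    exact hx.1

/-- the image of `Vd` in `Γ` -/
def Vn (p : ℕ) : Subgroup (Dh p) := (Vd p).map iD

instance Vn_normal (p : ℕ) : (Vn p).Normal := by
  constructor
  rintro _ ⟨x, hx, rfl⟩ g
  exact ⟨cj p g x, (cj_Vd g).1 x hx, iD_cj g x⟩

/-- the preimage of the center of `Γ / Vn` -/
def CV (p : ℕ) : Subgroup (Dh p) := (Subgroup.center (Dh p ⧸ Vn p)).comap (QuotientGroup.mk' (Vn p))

instance CV_normal (p : ℕ) : (CV p).Normal := by unfold CV; infer_instance

lemma mem_CV {x : Dh p} : x ∈ CV p ↔ ∀ g, (QuotientGroup.mk' (Vn p)) g * (QuotientGroup.mk' (Vn p)) x =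
    (QuotientGroup.mk' (Vn p)) x * (QuotientGroup.mk' (Vn p)) g := by
  unfold CV
  rw [Subgroup.mem_comap, Subgroup.mem_center_iff]
  constructor
  · intro h g
    exact h _
  · intro h g
    obtain ⟨g, rfl⟩ := QuotientGroup.mk'_surjective (Vn p) g
    exact h g

lemma mk_ab : (QuotientGroup.mk' (Vn p)) (iD bD) = (QuotientGroup.mk' (Vn p)) (iD (aD (p + 2))) := by
  have h : (QuotientGroup.mk' (Vn p)) (iD (bD * (aD (p + 2))⁻¹)) = 1 := by
    rw [← MonoidHom.mem_ker, QuotientGroup.ker_mk']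
    exact ⟨_, v0_Vd, rfl⟩
  rw [map_mul, map_mul, map_inv, map_inv, mul_inv_eq_one] at h
  exact h

lemma tR_CV : (tR : Dh p) ∈ CV p := by
  rw [mem_CV]
  intro g
  have h : g ∈ Subgroup.closure
      ({tL, tR} ∪ (fun j => iD (aD j)) '' {j | j < p + 3} : Set (Dh p)) := by
    rw [closure_Dh]; trivial
  induction h using Subgroup.closure_induction with
  | mem x hx =>
    rcases hx with hx | ⟨j, hj, rfl⟩
    · rcases hx with rfl | hx
      · rw [← map_mul, tL_tR, map_mul]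
      · rw [Set.mem_singleton_iff] at hx
        rw [hx]
    · have hj : j < p + 3 := hj
      change (QuotientGroup.mk' (Vn p)) (iD (aD j)) * _ = _ * (QuotientGroup.mk' (Vn p)) (iD (aD j))
      rw [← map_mul, ← map_mul, tR_conj]
      by_cases hj' : j < p + 2
      · rw [tRa_a hj']
      · rw [show j = p + 2 by omega, tRa_a', map_mul, map_mul, mk_ab]
  | one => rw [map_one, one_mul, mul_one]
  | mul x y _ _ hx hy => rw [map_mul, mul_assoc, hy, ← mul_assoc, hx, mul_assoc]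
  | inv x _ hx =>
    rw [map_inv]
    exact ((show Commute _ _ from hx).inv_left).eq

lemma ze_CV : (ze p : Dh p) ∈ CV p := by
  rw [mem_CV]
  intro g
  have h : g ∈ Subgroup.closure
      ({tL, tR} ∪ (fun j => iD (aD j)) '' {j | j < p + 3} : Set (Dh p)) := by
    rw [closure_Dh]; trivial
  induction h using Subgroup.closure_induction with
  | mem x hx =>
    have hH : x ∈ HD p → (QuotientGroup.mk' (Vn p)) x * (QuotientGroup.mk' (Vn p)) (ze p) =
        (QuotientGroup.mk' (Vn p)) (ze p) * (QuotientGroup.mk' (Vn p)) x := by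
      intro hx
      rw [← map_mul, ze_comm hx, map_mul]
    rcases hx with hx | ⟨j, hj, rfl⟩
    · rcases hx with rfl | hx
      · apply hH
        rw [HD_eq]
        exact Subgroup.subset_closure (Or.inl rfl)
      · rw [Set.mem_singleton_iff] at hx
        rw [hx]
        exact (mem_CV.1 tR_CV (ze p)).symm
    · apply hH
      rw [HD_eq]
      exact Subgroup.subset_closure (Or.inr ⟨j, hj, rfl⟩)
  | one => rw [map_one, one_mul, mul_one]
  | mul x y _ _ hx hy => rw [map_mul, mul_assoc, hy, ← mul_assoc, hx, mul_assoc]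
  | inv x _ hx =>
    rw [map_inv]
    exact ((show Commute _ _ from hx).inv_left).eq

lemma lam_CV (l : L (p + 3)) : lam p l ∈ CV p := by
  have hx : ∀ d i, i + d = p + 3 → lam p (xL i) ∈ CV p := by
    intro d
    induction d with
    | zero =>
      intro i hi
      rw [show i = p + 3 by omega, lam_x]
      exact tR_CV
    | succ d ih =>
      intro i hi
      rw [lam_x_step (by omega)]
      exact Subgroup.Normal.conj_mem inferInstance _ (ih (i + 1) (by omega)) _
  have hW : ∀ w : W (p + 3), lam p (sW (p + 3) w) ∈ CV p := by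
    intro w
    have h : (QuotientGroup.mk' (CV p)).comp ((lam p).comp (sW (p + 3))) = 1 := by
      apply homW_ext
      intro i hi
      rw [MonoidHom.comp_apply, MonoidHom.comp_apply, sW_x hi, MonoidHom.one_apply,
        ← MonoidHom.mem_ker, QuotientGroup.ker_mk']
      exact hx (p + 3 - i) i (by omega)
    have h1 := DFunLike.congr_fun h w
    rwa [MonoidHom.comp_apply, MonoidHom.comp_apply, MonoidHom.one_apply,
        ← MonoidHom.mem_ker, QuotientGroup.ker_mk'] at h1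
  have hy : lam p yL ∈ CV p := by
    have : (yL : L (p + 3)) = rL (p + 3) * (RL (p + 3))⁻¹ := by rw [rL_eq]; group
    rw [this, map_mul, map_inv, lam_r]
    exact Subgroup.mul_mem _ ze_CV (Subgroup.inv_mem _ (hW _))
  have h : (QuotientGroup.mk' (CV p)).comp (lam p) = 1 := by
    apply homL_ext
    · intro i hi
      rw [MonoidHom.comp_apply, MonoidHom.one_apply, ← MonoidHom.mem_ker, QuotientGroup.ker_mk']
      exact hx (p + 3 - i) i (by omega)
    · rw [MonoidHom.comp_apply, MonoidHom.one_apply, ← MonoidHom.mem_ker, QuotientGroup.ker_mk']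
      exact hy
  have h1 := DFunLike.congr_fun h l
  rwa [MonoidHom.comp_apply, MonoidHom.one_apply, ← MonoidHom.mem_ker, QuotientGroup.ker_mk'] at h1

/-- commutators with elements of `LR` are in the normal closure of `v_0` -/
lemma comm_Vd {x : D p} (hx : x ∈ LR p) (y : D p) : y * x * y⁻¹ * x⁻¹ ∈ Vd p := by
  obtain ⟨l, hl⟩ := hx
  have h1 := mem_CV.1 (lam_CV l) (iD y)
  rw [hl, ← mul_inv_eq_one] at h1
  have h1' : (QuotientGroup.mk' (Vn p)) (iD y * iD x * (iD x * iD y)⁻¹) = 1 := by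
    rw [← h1, map_mul, map_inv, map_mul, map_mul]
  rw [← MonoidHom.mem_ker, QuotientGroup.ker_mk'] at h1'
  replace h1 := h1'
  obtain ⟨d, hd, h2⟩ := h1
  have h3 : d = y * x * y⁻¹ * x⁻¹ := by
    have h4 : iD d = iD (y * x * y⁻¹ * x⁻¹) := by
      rw [h2]
      simp only [map_mul, map_inv, mul_inv_rev]
      group
    exact SemidirectProduct.inl_injective h4
  rw [← h3]
  exact hd

/-- if `ψ` maps `v_0` into `LR` then it maps `LR` into `LR` -/
theorem LR_of_v0 {ψ : MulAut (D p)}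
    (hN : ∀ x ∈ Pool.Agent.Helper20.DN.NN p, ψ x ∈ Pool.Agent.Helper20.DN.NN p)
    (h : QQ ψ (bD * (aD (p + 2))⁻¹) = 1) {x : D p} (hx : x ∈ LR p) : ψ x ∈ LR p := by
  rw [← QQ_one]
  apply central_one ψ (hN _ (LR_N hx))
  intro y
  have h1 : Vd p ≤ (QQ ψ).ker := by
    apply Subgroup.normalClosure_le_normal
    intro z hz
    rw [Set.mem_singleton_iff] at hz
    rw [hz]
    exact MonoidHom.mem_ker.2 h
  have h2 := MonoidHom.mem_ker.1 (h1 (comm_Vd hx y))
  rw [map_mul, map_mul, map_mul, map_inv, map_inv, mul_inv_eq_one, mul_inv_eq_iff_eq_mul] at h2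
  exact h2.symm

/-- if `ψ` maps `u_0` into `LR` then it maps `LL` into `LR` -/
theorem LL_of_u0 {ψ : MulAut (D p)}
    (hN : ∀ x ∈ Pool.Agent.Helper20.DN.NN p, ψ x ∈ Pool.Agent.Helper20.DN.NN p)
    (h : QQ ψ (eD * (aD 0)⁻¹) = 1) {x : D p} (hx : x ∈ LL p) : ψ x ∈ LR p := by
  rw [← QQ_one]
  apply central_one ψ (hN _ (LL_N hx))
  intro y
  have h1 : Vd p ≤ ((QQ ψ).comp (sg p).toMonoidHom).ker := by
    apply Subgroup.normalClosure_le_normal
    intro z hz
    rw [Set.mem_singleton_iff] at hz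
    rw [hz]
    rw [SetLike.mem_coe, MonoidHom.mem_ker]
    change QQ ψ (sg p (bD * (aD (p + 2))⁻¹)) = 1
    rw [map_mul, map_inv, sg_b, sg_a (by omega), Nat.sub_self]
    exact h
  have h2 := MonoidHom.mem_ker.1 (h1 (comm_Vd (sg_LL.2 hx) (sg p y)))
  change QQ ψ (sg p _) = 1 at h2
  have hss : ∀ z, sg p (sg p z) = z := fun z => DFunLike.congr_fun sg_sg z
  rw [map_mul, map_mul, map_mul, map_inv, map_inv, hss, hss, map_mul, map_mul, map_mul, map_inv,
    map_inv, mul_inv_eq_one, mul_inv_eq_iff_eq_mul] at h2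
  first
    | exact h2.symm
    | (rw [hss, hss] at h2; exact h2.symm)

/-- the dichotomy -/
theorem dicho (hp : 1 ≤ p) (ψ : MulAut (D p))
    (hN : ∀ x ∈ Pool.Agent.Helper20.DN.NN p, ψ x ∈ Pool.Agent.Helper20.DN.NN p) :
    (∀ x ∈ LR p, ψ x ∈ LR p) ∨ (∀ x ∈ LL p, ψ x ∈ LR p) := by
  rcases kill_uv hp ψ hN with h | h
  · right; exact fun x hx => LL_of_u0 hN h hx
  · left; exact fun x hx => LR_of_v0 hN h hx

/-- STEP 3: the automorphisms permute `LR` and `LL` -/
theorem step3 (hp : 1 ≤ p)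
    (hN : ∀ φ : MulAut (D p), ∀ x ∈ Pool.Agent.Helper20.DN.NN p, φ x ∈ Pool.Agent.Helper20.DN.NN p)
    (φ : MulAut (D p)) :
    ((∀ x, φ x ∈ LR p ↔ x ∈ LR p) ∧ (∀ x, φ x ∈ LL p ↔ x ∈ LL p)) ∨
      ((∀ x, φ x ∈ LL p ↔ x ∈ LR p) ∧ (∀ x, φ x ∈ LR p ↔ x ∈ LL p)) := by
  have a1 := dicho hp φ (hN φ)
  have a2 : (∀ x ∈ LR p, φ x ∈ LL p) ∨ (∀ x ∈ LL p, φ x ∈ LL p) := by
    rcases dicho hp (sg p * φ) (hN _) with h | h
    · left; exact fun x hx => sg_LL.1 (h x hx)
    · right; exact fun x hx => sg_LL.1 (h x hx)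
  have b1 := dicho hp φ⁻¹ (hN _)
  have b2 : (∀ x ∈ LR p, φ⁻¹ x ∈ LL p) ∨ (∀ x ∈ LL p, φ⁻¹ x ∈ LL p) := by
    rcases dicho hp (sg p * φ⁻¹) (hN _) with h | h
    · left; exact fun x hx => sg_LL.1 (h x hx)
    · right; exact fun x hx => sg_LL.1 (h x hx)
  have n1 : ¬ ∀ x ∈ LR p, x ∈ LL p := fun h => v0_LL (h _ v0_LR)
  have n2 : ¬ ∀ x ∈ LL p, x ∈ LR p := fun h => u0_LR (h _ u0_LL)
  have i1 : ∀ x, φ⁻¹ (φ x) = x := fun x => MulAut.inv_apply_self _ φ x
  have i2 : ∀ x, φ (φ⁻¹ x) = x := fun x => MulAut.apply_inv_self _ φ x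
  rcases a1 with a1 | a1
  · -- `φ LR ≤ LR`
    have b2' : ∀ x ∈ LL p, φ⁻¹ x ∈ LL p := by
      rcases b2 with b2 | b2
      · exact absurd (fun x hx => by have := b2 _ (a1 x hx); rwa [i1] at this) n1
      · exact b2
    have b1' : ∀ x ∈ LR p, φ⁻¹ x ∈ LR p := by
      rcases b1 with b1 | b1
      · exact b1
      · exact absurd (fun x hx => by
          have h := b1 x hx
          have h2 := a1 _ h
          rwa [i2] at h2) n2
    have a2' : ∀ x ∈ LL p, φ x ∈ LL p := by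
      rcases a2 with a2 | a2
      · exact absurd (fun x hx => by
          have h := a2 _ (b1' x hx)
          rwa [i2] at h) n1
      · exact a2
    left
    exact ⟨fun x => ⟨fun h => by have := b1' _ h; rwa [i1] at this, a1 x⟩,
      fun x => ⟨fun h => by have := b2' _ h; rwa [i1] at this, a2' x⟩⟩
  · -- `φ LL ≤ LR`
    have b1' : ∀ x ∈ LL p, φ⁻¹ x ∈ LR p := by
      rcases b1 with b1 | b1
      · exact absurd (fun x hx => by have := b1 _ (a1 x hx); rwa [i1] at this) n2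
      · exact b1
    have a2' : ∀ x ∈ LR p, φ x ∈ LL p := by
      rcases a2 with a2 | a2
      · exact a2
      · exact absurd (fun x hx => by have := b1' _ (a2 x hx); rwa [i1] at this) n2
    have b2' : ∀ x ∈ LR p, φ⁻¹ x ∈ LL p := by
      rcases b2 with b2 | b2
      · exact b2
      · exact absurd (fun x hx => by have := b2 _ (a2' x hx); rwa [i1] at this) n1
    right
    exact ⟨fun x => ⟨fun h => by have := b1' _ h; rwa [i1] at this, a2' x⟩,
      fun x => ⟨fun h => by have := b2' _ h; rwa [i1] at this, a1 x⟩⟩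

end Pool.Agent.Helper38.DN
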