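import Pool.Agent.Helper38.DN.S2
import Pool.Agent.Helper38.DN.S3
import Pool.Agent.Helper38.BN.N9

/-!
# Project DN, step 2 (end): `NN` is finitely generated and characteristic
-/

namespace Pool.Agent.Helper38.DN

open Pool.Agent.Helper20.DN hiding NN OmD
open Pool.Agent.Helper38.BN hiding RW

variable {p : ℕ}

lemma fold_eq (x : D p) : foldG p (iD x) = foldD p x := by
  have h : (foldG p).comp iD = foldD p := by
    apply homD_ext
    · intro j hj
      rw [MonoidHom.comp_apply, foldG_a hj, foldD_a hj]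
    · rw [MonoidHom.comp_apply, foldG_b, foldD_b]
    · rw [MonoidHom.comp_apply, foldG_e, foldD_e]
  exact DFunLike.congr_fun h x

lemma NN_eq : Pool.Agent.Helper20.DN.NN p = NN p := by
  ext x
  rw [mem_NN, ← fold_eq]
  rfl

/-- the elements of `Γ` whose fold is a power of `Ω` -/
noncomputable def NNh (p : ℕ) : Subgroup (Dh p) :=
  (Subgroup.zpowers (Om (p + 3) aH : HB (p + 3))).comap (foldG p)

lemma NNh_eq : NNh p = (lam p).range ⊔ ((lam' p).comp (sW (p + 3))).range := by
  apply le_antisymm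
  · intro x hx
    obtain ⟨l, w, rfl⟩ := decompN hx
    exact Subgroup.mul_mem_sup ⟨l, rfl⟩ ⟨w, rfl⟩
  · rw [sup_le_iff]
    constructor
    · rintro _ ⟨l, rfl⟩
      exact fold_lam l
    · rintro _ ⟨w, rfl⟩
      change foldG p (lam' p (sW (p + 3) w)) ∈ Subgroup.zpowers (Om (p + 3) aH : HB (p + 3))
      rw [fold_sW']
      exact Subgroup.one_mem _

instance L_fg (k : ℕ) : Group.FG (L k) := by
  have := G_fg k
  exact Group.fg_of_surjective (mkL_surj k)

instance W_fg (k : ℕ) : Group.FG (W k) := by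
  have := G_fg k
  exact Group.fg_of_surjective (f := pG k) (fun w => ⟨sG k w, pG_sG w⟩)

instance NNh_fg (p : ℕ) : Group.FG (NNh p) := by
  rw [Group.fg_iff_subgroup_fg, NNh_eq]
  apply Subgroup.FG.sup
  · rw [← Group.fg_iff_subgroup_fg]
    exact Group.fg_range _
  · rw [← Group.fg_iff_subgroup_fg]
    exact Group.fg_range _

/-- the signs on `NNh` -/
noncomputable def rN (p : ℕ) : NNh p →* ℤˣ × ℤˣ := (sgn p).comp (NNh p).subtype

/-- `NN` is finitely generated -/
theorem NN_fg : (NN p).FG := by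
  have h1 : Group.FG (rN p).ker := by
    have : (rN p).ker.FiniteIndex := inferInstance
    exact Subgroup.fg_of_index_ne_zero _
  let j : (rN p).ker →* (iD : D p →* Dh p).range :=
    ((NNh p).subtype.comp (rN p).ker.subtype).codRestrict _ (fun x => by
      obtain ⟨d, hd⟩ := mem_D (x := (x.1.1 : Dh p)) (MonoidHom.mem_ker.1 x.2)
      exact ⟨d, hd.symm⟩)
  let h : (rN p).ker →* D p :=
    (MonoidHom.ofInjective (f := (iD : D p →* Dh p)) SemidirectProduct.inl_injective).symm.toMonoidHom.comp j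
  have h2 : ∀ x : (rN p).ker, iD (h x) = (x.1.1 : Dh p) := by
    intro x
    have h3 := MulEquiv.apply_symm_apply
      (MonoidHom.ofInjective (f := (iD : D p →* Dh p)) SemidirectProduct.inl_injective) (j x)
    exact congrArg Subtype.val h3
  have h3 : h.range = NN p := by
    ext x
    constructor
    · rintro ⟨y, rfl⟩
      rw [mem_NN, ← fold_eq, h2]
      exact y.1.2
    · intro hx
      rw [mem_NN, ← fold_eq] at hx
      refine ⟨⟨⟨iD x, hx⟩, ?_⟩, ?_⟩
      · rw [MonoidHom.mem_ker]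
        exact SemidirectProduct.rightHom_inl (φ := kAct p) x
      · apply SemidirectProduct.inl_injective (φ := kAct p)
        exact h2 _
  rw [← h3, ← Group.fg_iff_subgroup_fg]
  exact Group.fg_range _

/-- STEP 2: `NN` is characteristic -/
theorem step2 (h1 : ∀ φ : MulAut (D p), ∃ s : D p, ∀ x,
    piD p (φ x) = piD p (s * x * s⁻¹)) (φ : MulAut (D p)) {x : D p}
    (hx : x ∈ Pool.Agent.Helper20.DN.NN p) : φ x ∈ Pool.Agent.Helper20.DN.NN p := by
  rw [NN_eq] at hx ⊢
  exact NN_char NN_fg h1 φ hx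

/-- STEPS 2 and 3 -/
theorem step23 (hp : 1 ≤ p) (h1 : ∀ φ : MulAut (D p), ∃ s : D p, ∀ x,
    piD p (φ x) = piD p (s * x * s⁻¹)) (φ : MulAut (D p)) :
    ((∀ x, φ x ∈ LR p ↔ x ∈ LR p) ∧ (∀ x, φ x ∈ LL p ↔ x ∈ LL p)) ∨
      ((∀ x, φ x ∈ LL p ↔ x ∈ LR p) ∧ (∀ x, φ x ∈ LR p ↔ x ∈ LL p)) :=
  step3 hp (fun φ _ hx => step2 h1 φ hx) φ

end Pool.Agent.Helper38.DN
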