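import Pool.Agent.Helper20.DN.Sym
import Pool.Agent.Helper38.BN.IntS

/-!
# Project DN, step 1: every automorphism of `D p` induces an inner automorphism of the symmetric
group of the strands (`p ≥ 1`, `n = p + 4 ≥ 5`)
-/

namespace Pool.Agent.Helper38.DN

open Pool.Agent.Helper20.DN Pool.Agent.Helper38.BN Equiv

variable {p : ℕ} {K : Type*} [Group K]

/-- a solution of the relations of type `D̃` gives a solution of those of type `B̃` with `d = 1` -/
theorem relA_one {a : ℕ → K} {b e : K} (h : RelD p a b e) : RelA (p + 1) a b 1 where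
  comm := h.comm
  braid := h.braid
  dcomm i _ _ := by simp
  four _ := by simp
  ba := h.ba
  bb := h.bb
  bc := h.bc
  bd := by simp

/-- the permutations of the strands -/
theorem permF_relD (p : ℕ) : RelD p (swF (p + 1)) (swF (p + 1) (p + 2)) (swF (p + 1) 0) where
  comm := (swF_relA (p + 1)).comm
  braid := (swF_relA (p + 1)).braid
  ba := rfl
  bb := (swF_relA (p + 1)).bb
  bc := (swF_relA (p + 1)).bc
  ea := rfl
  eb := by
    have h := (swF_relA (p + 1)).braid 0 (by omega)
    exact h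
  ec i h1 h2 := (swF_relA (p + 1)).comm 0 i (by omega) (by omega)
  be := ((swF_relA (p + 1)).comm 0 (p + 2) (by omega) (by omega)).symm

/-- the permutation of the strands, as a permutation of `Fin (p + 4)` -/
def piFD (p : ℕ) : D p →* Perm (Fin (p + 1 + 3)) := liftD (permF_relD p)

/-- the permutation of the strands -/
def piD (p : ℕ) : D p →* Perm ℕ := (extF (p + 1)).comp (piFD p)

lemma piFD_a {j : ℕ} (hj : j < p + 3) : piFD p (aD j) = swF (p + 1) j := liftD_a _ hj
@[simp] lemma piFD_b : piFD p bD = swF (p + 1) (p + 2) := liftD_b _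
@[simp] lemma piFD_e : piFD p eD = swF (p + 1) 0 := liftD_e _

lemma piD_a {j : ℕ} (hj : j < p + 3) : piD p (aD j) = swap j (j + 1) := by
  change extF (p + 1) (piFD p (aD j)) = _
  rw [piFD_a hj, extF_sw hj]
lemma piD_b : piD p bD = swap (p + 2) (p + 3) := by
  change extF (p + 1) (piFD p bD) = _
  rw [piFD_b, extF_sw (by omega)]
lemma piD_e : piD p eD = swap 0 1 := by
  change extF (p + 1) (piFD p eD) = _
  rw [piFD_e, extF_sw (by omega)]

lemma piFD_surj : Function.Surjective (piFD p) := by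
  intro σ
  obtain ⟨x, hx⟩ := piF_surj (m := p + 1) σ
  have h : (piFD p).range = ⊤ := by
    rw [eq_top_iff]
    intro τ _
    obtain ⟨y, hy⟩ := piF_surj (m := p + 1) τ
    have hle : (piF (p + 1)).range ≤ (piFD p).range := by
      have hc : (piF (p + 1)).range = Subgroup.map (piF (p + 1)) ⊤ := MonoidHom.range_eq_map _
      rw [hc, ← closure_A, MonoidHom.map_closure, Subgroup.closure_le]
      rintro _ ⟨s, (hs | ⟨j, hj, rfl⟩), rfl⟩
      · rcases hs with rfl | hs
        · rw [piF_b]
          exact ⟨bD, piFD_b⟩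
        · rw [Set.mem_singleton_iff] at hs
          rw [hs, piF_d]
          exact one_mem _
      · rw [piF_a (by exact hj)]
        exact ⟨aD j, piFD_a (by simpa using hj)⟩
    exact hle ⟨y, hy⟩
  have h1 : σ ∈ (piFD p).range := by rw [h]; trivial
  exact h1

/-- a homomorphism on `D p` with noncommuting values does not identify `a_0` and `a_1` -/
theorem ne_of_noncommD (f : D p →* K) (hf : ∃ x y, f x * f y ≠ f y * f x) :
    f (aD 0) ≠ f (aD 1) := by
  intro he
  obtain ⟨x, y, hxy⟩ := hf
  apply hxy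
  clear hxy
  have hr := (relD p).toRelBr.map f
  have h1 := all_eq_of_succ hr (i := 0) (by omega) he
  have hb : f bD = f (aD 0) := by
    have e1 : f bD * f (aD (p + 2)) = f (aD (p + 2)) * f bD := by
      rw [← map_mul, (relD p).ba, map_mul]
    have e2 : f bD * f (aD (p + 1)) * f bD = f (aD (p + 1)) * f bD * f (aD (p + 1)) := by
      rw [← map_mul, ← map_mul, (relD p).bb, map_mul, map_mul]
    rw [h1 (p + 2) (by omega)] at e1
    rw [h1 (p + 1) (by omega)] at e2
    exact eq_of_comm_braid e1 e2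
  have hE : f eD = f (aD 0) := by
    have e1 : f eD * f (aD 0) = f (aD 0) * f eD := by
      rw [← map_mul, (relD p).ea, map_mul]
    have e2 : f eD * f (aD 1) * f eD = f (aD 1) * f eD * f (aD 1) := by
      rw [← map_mul, ← map_mul, (relD p).eb, map_mul, map_mul]
    rw [h1 1 (by omega)] at e2
    exact eq_of_comm_braid e1 e2
  have hz : ∀ x : D p, f x ∈ Subgroup.zpowers (f (aD 0)) := by
    have hle : (⊤ : Subgroup (D p)) ≤ (Subgroup.zpowers (f (aD 0))).comap f := by
      rw [← closure_D, Subgroup.closure_le]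
      rintro s (hs | ⟨j, hj, rfl⟩)
      · rcases hs with rfl | hs
        · exact hb ▸ Subgroup.mem_zpowers _
        · rw [Set.mem_singleton_iff] at hs
          rw [hs]
          exact hE ▸ Subgroup.mem_zpowers _
      · have h2 : f (aD j) = f (aD 0) := h1 j hj
        exact h2 ▸ Subgroup.mem_zpowers _
    exact fun x => hle (Subgroup.mem_top x)
  obtain ⟨i, hi⟩ := hz x
  obtain ⟨j, hj⟩ := hz y
  simp only at hi hj
  rw [← hi, ← hj, ← zpow_add, ← zpow_add, add_comm i j]

/-- the restriction of `f` to the generators `a_j`, `b`, as a homomorphism on `A (p+1)` -/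
def resA (f : D p →* K) : A (p + 1) →* K := liftA (relA_one ((relD p).map f))

lemma resA_a (f : D p →* K) {j : ℕ} (hj : j < p + 3) : resA f (aA j) = f (aD j) := liftA_a _ hj
lemma resA_b (f : D p →* K) : resA f bA = f bD := liftA_b _

theorem resA_noncomm (f : D p →* K) (hf : ∃ x y, f x * f y ≠ f y * f x) :
    ∃ x y, resA f x * resA f y ≠ resA f y * resA f x := by
  have h0 := ne_of_noncommD f hf
  refine ⟨aA 0, aA 1, ?_⟩
  rw [resA_a f (by omega), resA_a f (by omega)]
  intro hc
  have hb := ((relD p).toRelBr.map f).braid 0 (by omega)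
  exact h0 (eq_of_comm_braid hc hb)

/-- homomorphisms with noncommuting values and `f a_0` a transposition are standard -/
theorem std_coreD (hp : 1 ≤ p) (f : D p →* Perm (Fin (p + 1 + 3)))
    (hf : ∃ x y, f x * f y ≠ f y * f x) (hs : (f (aD 0)).IsSwap) :
    ∃ g, ∀ x, f x = g * piFD p x * g⁻¹ := by
  obtain ⟨g, hg⟩ := std_core (by omega) (resA f) (resA_noncomm f hf)
    (by rw [resA_a f (by omega)]; exact hs)
  have ha : ∀ j, j < p + 3 → f (aD j) = g * swF (p + 1) j * g⁻¹ := by
    intro j hj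
    rw [← resA_a f hj, hg, piF_a (by omega)]
  have hb : f bD = g * swF (p + 1) (p + 2) * g⁻¹ := by
    rw [← resA_b f, hg, piF_b]
  -- the mirror image
  let f' : D p →* Perm (Fin (p + 1 + 3)) := f.comp (sg p).toMonoidHom
  have fa : ∀ j, j < p + 3 → f' (aD j) = f (aD (p + 2 - j)) := by
    intro j hj
    change f (sg p (aD j)) = _
    rw [sg_a hj]
  have fb : f' bD = f eD := by
    change f (sg p bD) = _
    rw [sg_b]
  have hf' : ∃ x y, f' x * f' y ≠ f' y * f' x := by
    obtain ⟨x, y, hxy⟩ := hf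
    refine ⟨(sg p).symm x, (sg p).symm y, ?_⟩
    change f (sg p ((sg p).symm x)) * f (sg p ((sg p).symm y)) ≠
      f (sg p ((sg p).symm y)) * f (sg p ((sg p).symm x))
    rw [MulEquiv.apply_symm_apply, MulEquiv.apply_symm_apply]
    exact hxy
  have hs' : (f' (aD 0)).IsSwap := by
    rw [fa 0 (by omega), ha _ (by omega)]
    have h1 : (swF (p + 1) (p + 2 - 0)).IsSwap := by
      unfold swF
      rw [dif_pos (by omega)]
      exact ⟨_, _, by simp [Fin.ext_iff], rfl⟩
    exact isSwap_conj h1 g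
  obtain ⟨g', hg'⟩ := std_core (by omega) (resA f') (resA_noncomm f' hf')
    (by rw [resA_a f' (by omega)]; exact hs')
  have he : f eD = f (aD 0) := by
    have e1 : f' bD = f' (aD (p + 2)) := by
      rw [← resA_b f', ← resA_a f' (by omega), hg', hg', piF_b, piF_a (by omega)]
    rw [fb, fa _ (by omega), Nat.sub_self] at e1
    exact e1
  refine ⟨g, fun x => ?_⟩
  have h : f = (MulAut.conj g).toMonoidHom.comp (piFD p) := by
    apply homD_ext
    · intro j hj
      rw [ha j hj]
      change _ = g * piFD p (aD j) * g⁻¹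
      rw [piFD_a hj]
    · rw [hb]
      change _ = g * piFD p bD * g⁻¹
      rw [piFD_b]
    · rw [he, ha 0 (by omega)]
      change _ = g * piFD p eD * g⁻¹
      rw [piFD_e]
  rw [h]
  rfl

/-- `f a_0` is a transposition for `n ≠ 6` -/
theorem swap_general (hp : 1 ≤ p) (hp2 : p ≠ 2) (f : D p →* Perm (Fin (p + 1 + 3)))
    (hf : ∃ x y, f x * f y ≠ f y * f x) : (f (aD 0)).IsSwap := by
  obtain ⟨g, hg⟩ := x2_core (by omega) (by omega) (resA f) (resA_noncomm f hf)
  rw [← resA_a f (by omega), hg, piF_a (by omega)]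
  have h1 : (swF (p + 1) 0).IsSwap := by
    unfold swF
    rw [dif_pos (by omega)]
    exact ⟨_, _, by simp [Fin.ext_iff], rfl⟩
  exact isSwap_conj h1 g

theorem noncomm_autD (φ : MulAut (D p)) :
    ∃ x y, ((piFD p).comp φ.toMonoidHom) x * ((piFD p).comp φ.toMonoidHom) y ≠
      ((piFD p).comp φ.toMonoidHom) y * ((piFD p).comp φ.toMonoidHom) x := by
  refine ⟨φ.symm (aD 0), φ.symm (aD 1), ?_⟩
  simp only [MonoidHom.comp_apply, MulEquiv.coe_toMonoidHom, MulEquiv.apply_symm_apply]
  rw [piFD_a (by omega), piFD_a (by omega)]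
  intro h
  have h1 := congrArg (extF (p + 1)) h
  rw [map_mul, map_mul, extF_sw (by omega), extF_sw (by omega)] at h1
  have h2 := congrArg (fun σ : Perm ℕ => σ 0) h1
  revert h2
  simp [swap_apply_def]

/-- from `Perm (Fin (p+4))` to `Perm ℕ` -/
theorem pi_of_piFD {φ : MulAut (D p)} {g : Perm (Fin (p + 1 + 3))}
    (h : ∀ x, piFD p (φ x) = g * piFD p x * g⁻¹) :
    ∃ s : D p, ∀ x, piD p (φ x) = piD p (s * x * s⁻¹) := by
  obtain ⟨s, hs⟩ := piFD_surj (p := p) g
  refine ⟨s, fun x => ?_⟩
  change extF (p + 1) (piFD p (φ x)) = extF (p + 1) (piFD p (s * x * s⁻¹))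
  rw [h, map_mul (piFD p), map_mul (piFD p), map_inv (piFD p), hs]

/-- step 1, `n ≠ 6` -/
theorem pi_char_general (hp : 1 ≤ p) (hp2 : p ≠ 2) (φ : MulAut (D p)) :
    ∃ s : D p, ∀ x, piD p (φ x) = piD p (s * x * s⁻¹) := by
  obtain ⟨g, hg⟩ := std_coreD hp ((piFD p).comp φ.toMonoidHom) (noncomm_autD φ)
    (swap_general hp hp2 _ (noncomm_autD φ))
  exact pi_of_piFD hg

end Pool.Agent.Helper38.DN
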