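import Pool.Agent.Helper38.DN.S1
import Pool.Agent.Helper38.BN.IntD
import Pool.Agent.Helper18.BN4.Core

/-!
# Project DN, step 2: the preimage `NN` of `⟨Ω⟩` under the folding `D p → Br` is characteristic
-/

namespace Pool.Agent.Helper38.DN

open Pool.Agent.Helper20.DN Pool.Agent.Helper38.BN Equiv
open Pool.Agent.Helper18.BN4 (kills_closure)

variable {p k : ℕ} {K : Type*} [Group K]

/-- folding: `b ↦ a_{k-1}`, `e ↦ a_0` -/
theorem fold_relD {a : ℕ → K} (h : RelBr (p + 3) a) : RelD p a (a (p + 2)) (a 0) where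
  comm := h.comm
  braid := h.braid
  ba := rfl
  bb := (h.braid (p + 1) (by omega)).symm
  bc i hi := (h.comm i (p + 2) (by omega) (by omega)).symm
  ea := rfl
  eb := h.braid 0 (by omega)
  ec i h1 h2 := h.comm 0 i (by omega) (by omega)
  be := (h.comm 0 (p + 2) (by omega) (by omega)).symm

/-- the folding -/
def foldD (p : ℕ) : D p →* HB (p + 3) := liftD (fold_relD (relH (p + 3)).toRelBr)

lemma foldD_a {j : ℕ} (hj : j < p + 3) : foldD p (aD j) = aH j := liftD_a _ hj
@[simp] lemma foldD_b : foldD p bD = aH (p + 2) := liftD_b _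
@[simp] lemma foldD_e : foldD p eD = aH 0 := liftD_e _

/-- the retraction of `HB k` onto the braid group -/
def retB (k : ℕ) : HB k →* HB k := liftH (a := aH) (d := 1)
  { comm := (relH k).comm, braid := (relH k).braid, dcomm := fun i _ _ => by simp,
    four := fun _ => by simp }

lemma retB_a {j : ℕ} (hj : j < k) : retB k (aH j) = aH j := liftH_a _ hj
@[simp] lemma retB_d : retB k dH = 1 := liftH_d _

lemma retB_Br {b : HB k} (hb : b ∈ BrH k) : retB k b = b := by
  unfold BrH at hb
  induction hb using Subgroup.closure_induction with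
  | mem x hx => obtain ⟨j, hj, rfl⟩ := hx; exact retB_a hj
  | one => exact map_one _
  | mul x y _ _ hx hy => rw [map_mul, hx, hy]
  | inv x _ hx => rw [map_inv, hx]

lemma retB_zz {j : ℕ} (hj : j ≤ k) : retB k (zz aH dH j) = 1 := by
  induction j with
  | zero => exact retB_d
  | succ j ih =>
    change retB k ((aH j)⁻¹ * zz aH dH j * aH j) = 1
    rw [map_mul, map_mul, map_inv, ih (by omega)]
    simp

lemma retB_zH (x : F k) : retB k (zH k x) = 1 := by
  have h : (retB k).comp (zH k) = 1 := by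
    apply homF_ext
    intro i hi
    change retB k (zH k (zF i)) = 1
    have h1 : zH k (zF i) = zz aH dH i := liftF_z _ hi
    rw [h1]
    exact retB_zz hi
  exact DFunLike.congr_fun h x

lemma kap_mem (k j : ℕ) (hj : j ≤ k) : kap (aH : ℕ → HB k) j ∈ BrH k := by
  induction j with
  | zero => exact one_mem _
  | succ j ih =>
    exact mul_mem (ih (by omega)) (Subgroup.subset_closure ⟨j, by simpa using hj, rfl⟩)

lemma Om_mem (k : ℕ) : Om k (aH : ℕ → HB k) ∈ BrH k := pow_mem (kap_mem k k le_rfl) _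

lemma retB_zeta (k : ℕ) : retB k (zeH k) = Om k aH := by
  rw [zeH_eq, map_mul, retB_zH, one_mul, retB_Br (Om_mem k)]

lemma Om_comm {b : HB k} (hb : b ∈ BrH k) : b * Om k aH = Om k aH * b := by
  have h := congrArg (retB k) (zeH_comm b)
  rw [map_mul, map_mul, retB_zeta, retB_Br hb] at h
  exact h

lemma foldD_mem (x : D p) : foldD p x ∈ BrH (p + 3) := by
  have hle : (⊤ : Subgroup (D p)) ≤ (BrH (p + 3)).comap (foldD p) := by
    rw [← closure_D, Subgroup.closure_le]
    rintro s (hs | ⟨j, hj, rfl⟩)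
    · rcases hs with rfl | hs
      · change foldD p bD ∈ BrH (p + 3)
        rw [foldD_b]
        exact Subgroup.subset_closure ⟨p + 2, by simp, rfl⟩
      · rw [Set.mem_singleton_iff] at hs
        rw [hs]
        change foldD p eD ∈ BrH (p + 3)
        rw [foldD_e]
        exact Subgroup.subset_closure ⟨0, by simp, rfl⟩
    · change foldD p (aD j) ∈ BrH (p + 3)
      rw [foldD_a (by simpa using hj)]
      exact Subgroup.subset_closure ⟨j, by simpa using hj, rfl⟩
  exact hle (Subgroup.mem_top x)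

lemma foldD_surj {b : HB (p + 3)} (hb : b ∈ BrH (p + 3)) : ∃ x : D p, foldD p x = b := by
  have hle : BrH (p + 3) ≤ (foldD p).range := by
    unfold BrH
    rw [Subgroup.closure_le]
    rintro _ ⟨j, hj, rfl⟩
    exact ⟨aD j, foldD_a (by simpa using hj)⟩
  exact hle hb

lemma piH_foldD (x : D p) : piH (p + 3) (foldD p x) = piD p x := by
  have h : (piH (p + 3)).comp (foldD p) = piD p := by
    apply homD_ext
    · intro j hj
      rw [MonoidHom.comp_apply, foldD_a hj, piD_a hj]
      exact liftH_a _ hj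
    · rw [MonoidHom.comp_apply, foldD_b, piD_b]
      exact liftH_a _ (by omega)
    · rw [MonoidHom.comp_apply, foldD_e, piD_e]
      exact liftH_a _ (by omega)
  exact DFunLike.congr_fun h x

/-- the pure subgroup -/
def PD (p : ℕ) : Subgroup (D p) := (piD p).ker

instance : (PD p).Normal := by unfold PD; infer_instance

lemma mem_PD {x : D p} : x ∈ PD p ↔ piD p x = 1 := MonoidHom.mem_ker

/-- the element `e a_0⁻¹` -/
def u0 {p : ℕ} : D p := eD * (aD 0)⁻¹
/-- the element `b a_{k-1}⁻¹` -/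
def v0 {p : ℕ} : D p := bD * (aD (p + 2))⁻¹

theorem ker_foldD (p : ℕ) : (foldD p).ker = Subgroup.normalClosure ({u0, v0} : Set (D p)) := by
  apply le_antisymm
  · -- modulo the normal closure the homomorphism `aH j ↦ aD j` is inverse to the folding
    set U := Subgroup.normalClosure ({u0, v0} : Set (D p)) with hU
    let q : D p →* D p ⧸ U := QuotientGroup.mk' U
    have hb : q bD = q (aD (p + 2)) := by
      have h : q v0 = 1 := (QuotientGroup.eq_one_iff _).2
        (Subgroup.subset_normalClosure (by simp))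
      unfold v0 at h
      rw [map_mul, map_inv] at h
      exact mul_inv_eq_one.1 h
    have he : q eD = q (aD 0) := by
      have h : q u0 = 1 := (QuotientGroup.eq_one_iff _).2
        (Subgroup.subset_normalClosure (by simp))
      unfold u0 at h
      rw [map_mul, map_inv] at h
      exact mul_inv_eq_one.1 h
    let g : HB (p + 3) →* D p ⧸ U := liftH (a := fun j => q (aD j)) (d := 1)
      { comm := ((relD p).toRelBr.map q).comm, braid := ((relD p).toRelBr.map q).braid,
        dcomm := fun i _ _ => by simp, four := fun _ => by simp }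
    have hg : g.comp (foldD p) = q := by
      apply homD_ext
      · intro j hj
        rw [MonoidHom.comp_apply, foldD_a hj]
        exact liftH_a _ hj
      · rw [MonoidHom.comp_apply, foldD_b, hb]
        exact liftH_a _ (by omega)
      · rw [MonoidHom.comp_apply, foldD_e, he]
        exact liftH_a _ (by omega)
    intro x hx
    have h1 : q x = 1 := by
      rw [← hg, MonoidHom.comp_apply, MonoidHom.mem_ker.1 hx, map_one]
    exact (QuotientGroup.eq_one_iff _).1 h1
  · apply Subgroup.normalClosure_le_normal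
    rintro s (rfl | hs)
    · change foldD p u0 = 1
      unfold u0
      rw [map_mul, map_inv, foldD_e, foldD_a (by omega), mul_inv_cancel]
    · rw [Set.mem_singleton_iff] at hs
      rw [hs]
      change foldD p v0 = 1
      unfold v0
      rw [map_mul, map_inv, foldD_b, foldD_a (by omega), mul_inv_cancel]

/-- the element `Ω` of `D p` -/
def OmD (p : ℕ) : D p := Om (p + 3) aD

lemma foldD_Om : foldD p (OmD p) = Om (p + 3) aH := by
  unfold OmD Om
  rw [map_pow, map_kap, kap_congr (fun j hj => foldD_a hj)]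

/-- the preimage of `⟨Ω⟩` -/
def NN (p : ℕ) : Subgroup (D p) := (Subgroup.zpowers (Om (p + 3) aH)).comap (foldD p)

lemma mem_NN {x : D p} : x ∈ NN p ↔ foldD p x ∈ Subgroup.zpowers (Om (p + 3) aH) := Iff.rfl

instance : (NN p).Normal := by
  refine ⟨fun x hx g => ?_⟩
  rw [mem_NN] at hx ⊢
  obtain ⟨e, he⟩ := hx
  refine ⟨e, ?_⟩
  simp only at he ⊢
  rw [map_mul, map_mul, map_inv, ← he]
  have h1 : Commute (foldD p g) (Om (p + 3) aH) := Om_comm (foldD_mem g)
  have h2 := (h1.zpow_right e).eq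
  rw [h2]; group

lemma piH_Om : piH (p + 3) (Om (p + 3) aH) = 1 := by
  have h1 := congrArg (piH (p + 3)) (zeH_eq (p + 3))
  rw [map_mul, piH_zH, one_mul] at h1
  rw [← h1]
  exact zeH_mem (p + 1)

lemma NN_le : NN p ≤ PD p := by
  intro x hx
  obtain ⟨e, he⟩ := hx
  simp only at he
  rw [mem_PD, ← piH_foldD, ← he, map_zpow, piH_Om, one_zpow]

/-! ### homomorphisms of the pure subgroup to free groups -/

lemma sqa_mem {j : ℕ} (hj : j < p + 3) : (aD j : D p) * aD j ∈ PD p := by
  rw [mem_PD, map_mul, piD_a hj, swap_mul_self]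

lemma u0_mem : (eD : D p) * (aD 0)⁻¹ ∈ PD p := by
  rw [mem_PD, map_mul, map_inv, piD_a (by omega), piD_e, mul_inv_cancel]

lemma v0_mem : (bD : D p) * (aD (p + 2))⁻¹ ∈ PD p := by
  rw [mem_PD, map_mul, map_inv, piD_a (by omega), piD_b, mul_inv_cancel]

/-- homomorphisms of the pure subgroup to free groups kill the kernel of the folding -/
theorem kill_U (f : PD p →* FreeGroup (Fin 2)) (x : PD p) (hx : x.1 ∈ (foldD p).ker) :
    f x = 1 := by
  have hu : ∀ y : PD p, (y : D p) ∈ Subgroup.normalClosure {(eD : D p) * (aD 0)⁻¹} → f y = 1 :=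
    fun y hy => kills_closure (a := aD 0) (b := eD) (c := aD 1) inferInstance
      ((relD p).braid 0 (by omega)) (relD p).eb ((relD p).ea.symm) (sqa_mem (by omega))
      u0_mem f y hy
  have hv : ∀ y : PD p, (y : D p) ∈ Subgroup.normalClosure {(bD : D p) * (aD (p + 2))⁻¹} →
      f y = 1 :=
    fun y hy => kills_closure (a := aD (p + 2)) (b := bD) (c := aD (p + 1)) inferInstance
      (((relD p).braid (p + 1) (by omega)).symm) (relD p).bb ((relD p).ba.symm)
      (sqa_mem (by omega)) v0_mem f y hy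
  have key : Subgroup.normalClosure ({u0, v0} : Set (D p)) ≤ (f.ker).map (PD p).subtype := by
    have hP : ∀ g s : D p, s ∈ PD p → g * s * g⁻¹ ∈ PD p := fun g s hs =>
      (inferInstance : (PD p).Normal).conj_mem s hs g
    rw [Subgroup.normalClosure, Subgroup.closure_le]
    intro y hy
    rw [Group.mem_conjugatesOfSet_iff] at hy
    obtain ⟨s, hs, hc⟩ := hy
    obtain ⟨g, rfl⟩ := isConj_iff.1 hc
    rcases hs with rfl | hs
    · refine ⟨⟨g * u0 * g⁻¹, hP g _ u0_mem⟩, ?_, rfl⟩
      exact hu _ (Subgroup.normalClosure_normal.conj_mem _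
        (Subgroup.subset_normalClosure (Set.mem_singleton _)) g)
    · rw [Set.mem_singleton_iff] at hs
      rw [hs]
      refine ⟨⟨g * v0 * g⁻¹, hP g _ v0_mem⟩, ?_, rfl⟩
      exact hv _ (Subgroup.normalClosure_normal.conj_mem _
        (Subgroup.subset_normalClosure (Set.mem_singleton _)) g)
  rw [ker_foldD] at hx
  obtain ⟨y, hy, hyx⟩ := key hx
  have e : y = x := Subtype.ext hyx
  rw [← e]
  exact hy

/-- surjections of the pure subgroup to the free group of rank two kill `NN` -/
theorem kill_NN (f : PD p →* FreeGroup (Fin 2)) (hf : Function.Surjective f) (x : PD p)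
    (hx : x.1 ∈ NN p) : f x = 1 := by
  -- `f x` is central
  have hc : ∀ y : PD p, f x * f y = f y * f x := by
    intro y
    have h1 : (x * y * x⁻¹ * y⁻¹ : PD p).1 ∈ (foldD p).ker := by
      rw [MonoidHom.mem_ker]
      change foldD p (x.1 * y.1 * x.1⁻¹ * y.1⁻¹) = 1
      obtain ⟨e, he⟩ := hx
      simp only at he
      rw [map_mul, map_mul, map_mul, map_inv, map_inv, ← he]
      have h2 : Commute (foldD p y.1) (Om (p + 3) aH) := Om_comm (foldD_mem y.1)
      have h3 := (h2.zpow_right e).eq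
      rw [← h3]; group
    have h4 := kill_U f _ h1
    rw [map_mul, map_mul, map_mul, map_inv, map_inv, mul_inv_eq_one, mul_inv_eq_iff_eq_mul] at h4
    exact h4
  by_contra hne
  -- then the free group is commutative
  obtain ⟨s, hs⟩ := hf (FreeGroup.of 0)
  obtain ⟨t, ht⟩ := hf (FreeGroup.of 1)
  have h1 := hc s
  have h2 := hc t
  rw [hs] at h1
  rw [ht] at h2
  have h3 := Pool.Agent.Helper18.BN4.comm_trans hne h1.symm h2
  have h4 := Pool.Agent.Helper18.BN4.of_comm h3
  exact absurd h4 (by decide)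

/-! ### the homomorphism to `Q` -/

/-- the folding on the pure subgroups -/
def fPD (p : ℕ) : PD p →* PH (p + 3) where
  toFun x := ⟨foldD p x.1, by
    have h : piD p x.1 = 1 := x.2
    change piH (p + 3) (foldD p x.1) = 1
    rw [piH_foldD, h]⟩
  map_one' := Subtype.ext (map_one (foldD p))
  map_mul' x y := Subtype.ext (map_mul (foldD p) x.1 y.1)

/-- the homomorphism of the pure subgroup to `Q (k-1)` -/
noncomputable def thD (p : ℕ) : PD p →* Q (p + 2) := (TQ (p + 2)).comp (fPD p)

lemma iota_Br (h : HB k) : iota k h ∈ BrH (k + 1) := by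
  have hle : (⊤ : Subgroup (HB k)) ≤ (BrH (k + 1)).comap (iota k) := by
    rw [← closure_H, Subgroup.closure_le]
    rintro s (hs | ⟨j, hj, rfl⟩)
    · rw [Set.mem_singleton_iff] at hs
      rw [hs]
      change iota k dH ∈ BrH (k + 1)
      have h1 : iota k dH = aH 0 * aH 0 := liftH_d _
      rw [h1]
      have h2 : (aH 0 : HB (k + 1)) ∈ BrH (k + 1) :=
        Subgroup.subset_closure ⟨0, by simp, rfl⟩
      exact mul_mem h2 h2
    · change iota k (aH j) ∈ BrH (k + 1)
      have h1 : iota k (aH j) = aH (j + 1) := liftH_a _ hj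
      rw [h1]
      exact Subgroup.subset_closure ⟨j + 1, by simpa using hj, rfl⟩
  exact hle (Subgroup.mem_top h)

theorem thD_surj : Function.Surjective (thD p) := by
  rintro ⟨_, h, hh, rfl⟩
  obtain ⟨x, hx⟩ := foldD_surj (p := p) (iota_Br (k := p + 2) h)
  have hx' : x ∈ PD p := by
    rw [mem_PD, ← piH_foldD, hx]
    exact iota_mem hh
  refine ⟨⟨x, hx'⟩, Subtype.ext ?_⟩
  change (TQ (p + 2) (fPD p ⟨x, hx'⟩) : MulAut (F (p + 2))) = _
  have e : fPD p ⟨x, hx'⟩ = ⟨iota (p + 2) h, iota_mem hh⟩ := Subtype.ext hx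
  rw [e, TQ_spec]
  exact Th_iota (h := h) (α := cP (p + 2 + 1) ⟨iota (p + 2) h, iota_mem hh⟩) rfl

theorem thD_ker {x : PD p} (hx : thD p x = 1) : x.1 ∈ NN p := by
  obtain ⟨y, e, h⟩ := TQ_ker (k := p + 2) hx
  have h1 : foldD p x.1 = zH (p + 2 + 1) y * zeH (p + 2 + 1) ^ e := h
  have h2 := congrArg (retB (p + 3)) h1
  rw [retB_Br (foldD_mem x.1)] at h2
  rw [mem_NN, h2, map_mul, map_zpow]
  have h3 : retB (p + 3) (zH (p + 2 + 1) y) = 1 := retB_zH y
  have h4 : retB (p + 3) (zeH (p + 2 + 1)) = Om (p + 3) aH := retB_zeta (p + 3)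
  rw [h3, h4, one_mul]
  exact ⟨e, rfl⟩

/-! ### `NN` is characteristic -/

theorem NN_char_pure (hfg : (NN p).FG) {φ : MulAut (D p)}
    (hπ : ∀ x, piD p (φ x) = piD p x) {x : D p} (hx : x ∈ NN p) : φ x ∈ NN p := by
  have hP : ∀ y : D p, y ∈ PD p → φ y ∈ PD p := fun y hy => by
    rw [mem_PD] at hy ⊢
    rw [hπ, hy]
  -- the restriction of `φ`
  let r : PD p →* PD p := (φ.toMonoidHom.comp (PD p).subtype).codRestrict (PD p)
    (fun y => hP y.1 y.2)
  have hr : ∀ y : PD p, (r y).1 = φ y.1 := fun _ => rfl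
  have hrs : Function.Surjective r := by
    intro y
    have h1 : φ.symm y.1 ∈ PD p := by
      have h2 : piD p y.1 = 1 := y.2
      rw [mem_PD, ← hπ, MulEquiv.apply_symm_apply, h2]
    exact ⟨⟨φ.symm y.1, h1⟩, Subtype.ext (φ.apply_symm_apply y.1)⟩
  -- the subgroup `M`
  let h0 : NN p →* MulAut (F (p + 2)) :=
    (Q (p + 2)).subtype.comp ((thD p).comp (r.comp (Subgroup.inclusion NN_le)))
  let M : Subgroup (MulAut (F (p + 2))) := h0.range
  have hM : M ≤ Q (p + 2) := by
    rintro _ ⟨y, rfl⟩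
    exact (thD p (r (Subgroup.inclusion NN_le y))).2
  have hmem : ∀ q ∈ M, ∃ y : PD p, y.1 ∈ NN p ∧ ((thD p (r y)) : MulAut (F (p + 2))) = q := by
    rintro _ ⟨y, rfl⟩
    exact ⟨Subgroup.inclusion NN_le y, y.2, rfl⟩
  have hmem' : ∀ y : PD p, y.1 ∈ NN p → ((thD p (r y)) : MulAut (F (p + 2))) ∈ M :=
    fun y hy => ⟨⟨y.1, hy⟩, rfl⟩
  have hn : ∀ q ∈ Q (p + 2), ∀ z ∈ M, q * z * q⁻¹ ∈ M := by
    intro q hq z hz
    obtain ⟨y, hy, rfl⟩ := hmem z hz
    obtain ⟨w, hw⟩ := thD_surj (p := p) ⟨q, hq⟩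
    obtain ⟨w', rfl⟩ := hrs w
    have h1 : (w' * y * w'⁻¹ : PD p).1 ∈ NN p :=
      (inferInstance : (NN p).Normal).conj_mem _ hy _
    have h2 := hmem' _ h1
    rw [map_mul, map_mul, map_inv, map_mul, map_mul, map_inv, hw] at h2
    exact h2
  have hMfg : M.FG := by
    have h1 : Group.FG (NN p) := (Group.fg_iff_subgroup_fg _).2 hfg
    exact (Group.fg_iff_subgroup_fg _).1 (Group.fg_range h0)
  have hk : ∀ g : Q (p + 2) →* FreeGroup (Fin 2), Function.Surjective g →
      ∀ z (hz : z ∈ M), g ⟨z, hM hz⟩ = 1 := by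
    intro g hg z hz
    obtain ⟨y, hy, e⟩ := hmem z hz
    have h1 : (⟨z, hM hz⟩ : Q (p + 2)) = thD p (r y) := Subtype.ext e.symm
    rw [h1]
    exact kill_NN (g.comp ((thD p).comp r)) (hg.comp (thD_surj.comp hrs)) y hy
  have hbot := claim (p + 2) M hM hn hMfg hk
  have h1 := hmem' ⟨x, NN_le hx⟩ hx
  rw [hbot, Subgroup.mem_bot] at h1
  exact thD_ker (x := r ⟨x, NN_le hx⟩) (Subtype.ext h1)

/-- `NN` is characteristic -/
theorem NN_char (hfg : (NN p).FG) (h1 : ∀ φ : MulAut (D p), ∃ s : D p, ∀ x,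
    piD p (φ x) = piD p (s * x * s⁻¹)) (φ : MulAut (D p)) {x : D p} (hx : x ∈ NN p) :
    φ x ∈ NN p := by
  obtain ⟨s, hs⟩ := h1 φ
  have h2 : ∀ x, piD p ((MulAut.conj s⁻¹ * φ) x) = piD p x := by
    intro x
    change piD p (s⁻¹ * φ x * s⁻¹⁻¹) = piD p x
    rw [map_mul, map_mul, hs, map_mul, map_mul, map_inv, map_inv, map_inv]
    group
  have h3 := NN_char_pure hfg h2 hx
  have h4 := (inferInstance : (NN p).Normal).conj_mem _ h3 s
  have h5 : s * (MulAut.conj s⁻¹ * φ) x * s⁻¹ = φ x := by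
    change s * (s⁻¹ * φ x * s⁻¹⁻¹) * s⁻¹ = φ x
    group
  rwa [h5] at h4

end Pool.Agent.Helper38.DN
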