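import Pool.Agent.Helper20.DN.WF

/-!
# Project DN, step 3: involutions of `W k` and their centralizers
-/

namespace Pool.Agent.Helper38.DN

open Pool.Agent.Helper20.DN Pool.Agent.Helper38.BN

variable {k : ℕ}

lemma chain_append {l : List ℕ} {i : ℕ} (hl : l.IsChain (· ≠ ·))
    (h : ∀ j ∈ l.getLast?, j ≠ i) : (l ++ [i]).IsChain (· ≠ ·) := by
  rw [List.isChain_append]
  refine ⟨hl, List.isChain_singleton _, ?_⟩
  intro x hx y hy
  have : y = i := by simpa using hy.symm
  subst this
  exact h x hx

lemma red_append {l : List ℕ} {i : ℕ} (hi : i ≤ k) (hl : RedW k l)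
    (h : ∀ j ∈ l.getLast?, j ≠ i) : RedW k (l ++ [i]) := by
  refine ⟨?_, chain_append hl.2 h⟩
  intro j hj
  rcases List.mem_append.1 hj with hj | hj
  · exact hl.1 j hj
  · rw [List.mem_singleton] at hj
    rw [hj]
    exact hi

lemma red_cons {l : List ℕ} {i : ℕ} (hi : i ≤ k) (hl : RedW k l)
    (h : ∀ j ∈ l.head?, i ≠ j) : RedW k (i :: l) := by
  cases l with
  | nil =>
    refine ⟨?_, List.isChain_singleton _⟩
    intro j hj
    rw [List.mem_singleton] at hj
    rw [hj]
    exact hi
  | cons a l =>
    refine ⟨?_, List.isChain_cons_cons.2 ⟨h a (by simp), hl.2⟩⟩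
    intro j hj
    rcases List.mem_cons.1 hj with hj | hj
    · rw [hj]; exact hi
    · exact hl.1 j hj

/-- a reduced word which does not begin with `i` and commutes with `x_i` is empty -/
lemma cent_x_core {i : ℕ} (hi : i ≤ k) {l : List ℕ} (hl : RedW k l) (h0 : ∀ j ∈ l.head?, i ≠ j)
    (h : (wv l : W k) * xW i = xW i * wv l) : l = [] := by
  have h1 : RedW k (i :: l) := red_cons hi hl h0
  rcases List.eq_nil_or_concat l with h2 | ⟨l', b, h2⟩
  · exact h2
  rw [List.concat_eq_append] at h2
  exfalso
  by_cases hb : b = i
  · subst hb
    have h3 : RedW k l' := by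
      rw [h2] at hl
      exact ⟨fun j hj => hl.1 j (List.mem_append_left _ hj), (List.isChain_append.1 hl.2).1⟩
    have h4 : (wv l' : W k) = wv (b :: l) := by
      rw [wv_cons, ← h, h2, wv_append, wv_cons, wv_nil, mul_one, mul_assoc, xW_sq, mul_one]
    have h5 := congrArg List.length (red_uniq h3 h1 h4)
    rw [h2] at h5
    simp at h5
    omega
  · have h3 : RedW k (l ++ [i]) := by
      apply red_append hi hl
      intro j hj
      rw [h2] at hj
      have : j = b := by simpa using hj.symm
      rw [this]
      exact hb
    have h4 : (wv (l ++ [i]) : W k) = wv (i :: l) := by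
      rw [wv_cons, ← h, wv_append, wv_cons, wv_nil, mul_one]
    have h5 := red_uniq h3 h1 h4
    cases l with
    | nil => simp at h2
    | cons a l =>
      rw [List.cons_append, List.cons.injEq] at h5
      exact h0 a (by simp) h5.1.symm

/-- the centralizer of `x_i` -/
theorem cent_x {i : ℕ} (hi : i ≤ k) {u : W k} (h : u * xW i = xW i * u) : u = 1 ∨ u = xW i := by
  obtain ⟨l, hl, rfl⟩ := exists_red u
  cases l with
  | nil => left; rfl
  | cons a l =>
    by_cases ha : a = i
    · subst ha
      right
      have hl' : RedW k l := ⟨fun j hj => hl.1 j (List.mem_cons_of_mem _ hj), hl.2.tail⟩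
      have h0 : ∀ j ∈ l.head?, a ≠ j := by
        intro j hj
        cases l with
        | nil => simp at hj
        | cons b l =>
          have : j = b := by simpa using hj.symm
          rw [this]
          exact (List.isChain_cons_cons.1 hl.2).1
      have h1 : (wv l : W k) * xW a = xW a * wv l := by
        rw [wv_cons] at h
        rw [mul_assoc] at h
        exact mul_left_cancel h
      rw [cent_x_core hi hl' h0 h1]
      simp
    · exfalso
      have := cent_x_core hi hl (by
        intro j hj
        have : j = a := by simpa using hj.symm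
        rw [this]
        exact fun h => ha h.symm) h
      simp at this

/-- involutions are conjugate to generators -/
theorem inv_conj : ∀ (n : ℕ) (l : List ℕ), l.length ≤ n → RedW k l →
    (wv l : W k) * wv l = 1 → (wv l : W k) = 1 ∨ ∃ g : W k, ∃ i, i ≤ k ∧ wv l = g * xW i * g⁻¹ := by
  intro n
  induction n with
  | zero =>
    intro l hn _ _
    left
    have : l = [] := List.length_eq_zero_iff.1 (by omega)
    rw [this]; rfl
  | succ n ih =>
    intro l hn hl h
    cases l with
    | nil => left; rfl
    | cons a l =>
      right
      rcases List.eq_nil_or_concat l with h2 | ⟨l', b, h2⟩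
      · refine ⟨1, a, hl.1 a (by simp), ?_⟩
        rw [h2]; simp
      rw [List.concat_eq_append] at h2
      have ha : a ≤ k := hl.1 a (by simp)
      by_cases hb : b = a
      · subst hb
        have hl' : RedW k l' := by
          rw [h2] at hl
          have h3 := hl.2.tail
          exact ⟨fun j hj => hl.1 j (List.mem_cons_of_mem _ (List.mem_append_left _ hj)),
            (List.isChain_append.1 h3).1⟩
        have h4 : (wv (b :: l) : W k) = xW b * wv l' * (xW b)⁻¹ := by
          rw [h2, wv_cons, wv_append, wv_cons, wv_nil, mul_one, xW_inv, mul_assoc]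
        have h5 : (wv l' : W k) * wv l' = 1 := by
          rw [h4] at h
          have : (wv l' : W k) * wv l' = (xW b)⁻¹ * (xW b * wv l' * (xW b)⁻¹ * (xW b * wv l' * (xW b)⁻¹)) * xW b := by
            group
          rw [this, h]
          group
        rcases ih l' (by rw [h2] at hn; simp at hn; omega) hl' h5 with h6 | ⟨g, i, hi, h6⟩
        · exfalso
          have h7 : l' = [] := red_uniq hl' ⟨by simp, List.isChain_nil⟩ (by rw [h6]; rfl)
          rw [h2, h7] at hl
          exact (List.isChain_cons_cons.1 hl.2).1 rfl
        · refine ⟨xW b * g, i, hi, ?_⟩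
          rw [h4, h6]
          group
      · exfalso
        have h3 : RedW k ((a :: l) ++ (a :: l)) := by
          refine ⟨?_, ?_⟩
          · intro j hj
            rcases List.mem_append.1 hj with hj | hj
            · exact hl.1 j hj
            · exact hl.1 j hj
          · rw [List.isChain_append]
            refine ⟨hl.2, hl.2, ?_⟩
            intro x hx y hy
            have hy' : y = a := by simpa using hy.symm
            have hx' : x = b := by
              rw [h2] at hx
              have : (a :: (l' ++ [b])) = (a :: l') ++ [b] := rfl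
              rw [this, List.getLast?_concat] at hx
              simpa using hx.symm
            rw [hx', hy']
            exact hb
        have h4 := red_uniq h3 ⟨by simp, List.isChain_nil⟩ (by rw [wv_append, h]; rfl)
        simp at h4

/-- the centralizer of an involution -/
theorem cent_inv {h u : W k} (hh : h * h = 1) (h1 : h ≠ 1) (hu : u * h = h * u) :
    u = 1 ∨ u = h := by
  obtain ⟨l, hl, rfl⟩ := exists_red h
  rcases inv_conj l.length l le_rfl hl hh with h2 | ⟨g, i, hi, h2⟩
  · exact absurd h2 h1
  rw [h2] at hu ⊢
  have h3 : (g⁻¹ * u * g) * xW i = xW i * (g⁻¹ * u * g) := by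
    have : (g⁻¹ * u * g) * xW i = g⁻¹ * (u * (g * xW i * g⁻¹)) * g := by group
    rw [this, hu]
    group
  rcases cent_x hi h3 with h4 | h4
  · left
    have : u = g * (g⁻¹ * u * g) * g⁻¹ := by group
    rw [this, h4]; group
  · right
    have : u = g * (g⁻¹ * u * g) * g⁻¹ := by group
    rw [this, h4]

end Pool.Agent.Helper38.DN
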